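import Pool.Agent.H56.Fekete.Maps

/-!
# The curve, its interior and its exterior
-/

namespace Pool.Agent.H56.Fekete

open Complex Metric Set Filter Topology

/-- the exterior map, extended to the plane -/
noncomputable def gx (j : ℕ) (z : ℂ) : ℂ := (KE j z⁻¹)⁻¹

/-- its inverse -/
noncomputable def gxi (j : ℕ) (w : ℂ) : ℂ := ((KE j).symm w⁻¹)⁻¹

lemma gx_gxi (j : ℕ) (w : ℂ) : gx j (gxi j w) = w := by
  unfold gx gxi; rw [inv_inv, Homeomorph.apply_symm_apply, inv_inv]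

lemma gxi_gx (j : ℕ) (w : ℂ) : gxi j (gx j w) = w := by
  unfold gx gxi; rw [inv_inv, Homeomorph.symm_apply_apply, inv_inv]

lemma gx_zero (j : ℕ) : gx j 0 = 0 := by
  unfold gx; rw [inv_zero, KE_zero, inv_zero]

lemma gxi_zero (j : ℕ) : gxi j 0 = 0 := by
  have := gxi_gx j 0
  rwa [gx_zero] at this

lemma KE_norm_ge (j : ℕ) (u : ℂ) : 0.99 * ‖u‖ ≤ ‖KE j u‖ := by
  have h1 := KE_near j u
  have h2 := norm_sub_norm_le u (KE j u)
  rw [norm_sub_rev] at h2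
  have h3 := al_le j
  nlinarith [norm_nonneg u]

lemma KE_norm_le (j : ℕ) (u : ℂ) : ‖KE j u‖ ≤ 1.01 * ‖u‖ := by
  have h1 := KE_near j u
  have h2 := norm_sub_norm_le (KE j u) u
  have h3 := al_le j
  nlinarith [norm_nonneg u]

lemma KE_ne_zero (j : ℕ) {u : ℂ} (hu : u ≠ 0) : KE j u ≠ 0 := by
  rw [← norm_pos_iff] at *
  have := KE_norm_ge j u
  linarith

lemma gx_near (j : ℕ) (z : ℂ) : ‖gx j z - z‖ ≤ 61 * al j * ‖z‖ := by
  by_cases hz : z = 0
  · subst hz; rw [gx_zero]; simp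
  · have hu : z⁻¹ ≠ 0 := inv_ne_zero hz
    have h1 := KE_near j z⁻¹
    have h3 := al_le j
    have h4 := al_pos j
    have h5 : (1 - 60 * al j) * ‖z⁻¹‖ ≤ ‖KE j z⁻¹‖ := by
      have h2 := norm_sub_norm_le z⁻¹ (KE j z⁻¹)
      rw [norm_sub_rev] at h2
      linarith
    have hne := KE_ne_zero j hu
    have e : gx j z - z = -(KE j z⁻¹ - z⁻¹) * z / KE j z⁻¹ := by
      unfold gx
      generalize KE j z⁻¹ = k at hne ⊢
      field_simp
      ring
    rw [e, norm_div, norm_mul, norm_neg, div_le_iff₀ (norm_pos_iff.2 hne)]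
    have hz' : 0 < ‖z‖ := norm_pos_iff.2 hz
    have h6 : ‖z⁻¹‖ * ‖z‖ = 1 := by rw [← norm_mul, inv_mul_cancel₀ hz, norm_one]
    have h7 : 0 < ‖z⁻¹‖ := norm_pos_iff.2 hu
    calc ‖KE j z⁻¹ - z⁻¹‖ * ‖z‖ ≤ 60 * al j * ‖z⁻¹‖ * ‖z‖ := by gcongr
      _ ≤ 61 * al j * ‖z‖ * ((1 - 60 * al j) * ‖z⁻¹‖) := by
          have : 60 ≤ 61 * (1 - 60 * al j) := by linarith
          have h8 : 0 ≤ al j * (‖z⁻¹‖ * ‖z‖) := by positivity
          nlinarith
      _ ≤ _ := by gcongr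

lemma gx_norm_ge (j : ℕ) (z : ℂ) : 0.99 * ‖z‖ ≤ ‖gx j z‖ := by
  have h1 := gx_near j z
  have h2 := norm_sub_norm_le z (gx j z)
  rw [norm_sub_rev] at h2
  have h3 := al_le j
  nlinarith [norm_nonneg z]

lemma gx_continuous (j : ℕ) : Continuous (gx j) := by
  rw [continuous_iff_continuousAt]
  intro z
  by_cases hz : z = 0
  · subst hz
    rw [ContinuousAt, gx_zero, tendsto_zero_iff_norm_tendsto_zero]
    have h1 : Tendsto (fun z : ℂ => 2 * ‖z‖) (𝓝 0) (𝓝 (2 * ‖(0 : ℂ)‖)) := by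
      apply Continuous.tendsto; fun_prop
    rw [norm_zero, mul_zero] at h1
    refine squeeze_zero (fun _ => norm_nonneg _) (fun z => ?_) h1
    have h2 := gx_near j z
    have h3 := norm_sub_norm_le (gx j z) z
    have h4 := al_le j
    nlinarith [norm_nonneg z]
  · unfold gx
    have h1 : ContinuousAt (fun z : ℂ => KE j z⁻¹) z :=
      (KE j).continuous.continuousAt.comp (continuousAt_inv₀ hz)
    exact h1.inv₀ (KE_ne_zero j (inv_ne_zero hz))

lemma gxi_norm_le (j : ℕ) (w : ℂ) : ‖gxi j w‖ ≤ 1.02 * ‖w‖ := by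
  have := gx_norm_ge j (gxi j w)
  rw [gx_gxi] at this
  linarith [norm_nonneg w]

lemma gxi_continuous (j : ℕ) : Continuous (gxi j) := by
  rw [continuous_iff_continuousAt]
  intro w
  by_cases hw : w = 0
  · subst hw
    rw [ContinuousAt, gxi_zero, tendsto_zero_iff_norm_tendsto_zero]
    have h1 : Tendsto (fun z : ℂ => 1.02 * ‖z‖) (𝓝 0) (𝓝 (1.02 * ‖(0 : ℂ)‖)) := by
      apply Continuous.tendsto; fun_prop
    rw [norm_zero, mul_zero] at h1
    exact squeeze_zero (fun _ => norm_nonneg _) (fun z => gxi_norm_le j z) h1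
  · unfold gxi
    have h1 : ContinuousAt (fun z : ℂ => (KE j).symm z⁻¹) w :=
      (KE j).symm.continuous.continuousAt.comp (continuousAt_inv₀ hw)
    have h2 : (KE j).symm w⁻¹ ≠ 0 := by
      intro h0
      have := congrArg (KE j) h0
      rw [Homeomorph.apply_symm_apply, KE_zero] at this
      exact inv_ne_zero hw this
    exact h1.inv₀ h2

/-- the exterior map as a homeomorphism of the plane -/
noncomputable def gH (j : ℕ) : ℂ ≃ₜ ℂ where
  toFun := gx j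
  invFun := gxi j
  left_inv := gxi_gx j
  right_inv := gx_gxi j
  continuous_toFun := gx_continuous j
  continuous_invFun := gxi_continuous j

lemma gx_injective (j : ℕ) : Function.Injective (gx j) := (gH j).injective

lemma inv_mem_closedBall {z : ℂ} (hz : 1 ≤ ‖z‖) : z⁻¹ ∈ closedBall (0 : ℂ) 1 := by
  rw [mem_closedBall_zero_iff, norm_inv]
  exact inv_le_one_of_one_le₀ hz

lemma gx_neg (j : ℕ) {z : ℂ} (hz : 1 ≤ ‖z‖) : gx j (-z) = -gx j z := by
  unfold gx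
  rw [inv_neg, KE_neg j (inv_mem_closedBall hz), inv_neg]

lemma gx_eq (j : ℕ) {z : ℂ} (hz : 1 ≤ ‖z‖) : gx j z ^ 2 = gx (j + 1) (z ^ 2) + aa (j + 1) := by
  have hz0 : z ≠ 0 := by
    rw [← norm_pos_iff]; linarith
  have h1 := KE_eq j (inv_mem_closedBall hz)
  have h2 := KE_ne_zero j (inv_ne_zero hz0)
  have h3 := KE_ne_zero (j + 1) (pow_ne_zero 2 (inv_ne_zero hz0))
  have e : (z ^ 2)⁻¹ = z⁻¹ ^ 2 := (inv_pow z 2).symm
  unfold gx
  rw [e]
  generalize KE (j + 1) (z⁻¹ ^ 2) = k2 at *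
  generalize KE j z⁻¹ = k1 at *
  field_simp
  linear_combination (-1 : ℂ) * h1

/-- the interior domain -/
def Din (j : ℕ) : Set ℂ := gx j '' ball 0 1

/-- the curve -/
def eta (j : ℕ) : Set ℂ := gx j '' sphere 0 1

lemma eq_or_of_sq {j : ℕ} {w z : ℂ} (hz : 1 ≤ ‖z‖) (h : w ^ 2 - aa (j + 1) = gx (j + 1) (z ^ 2)) :
    w = gx j z ∨ w = gx j (-z) := by
  have h1 := gx_eq j hz
  have h2 : w ^ 2 = gx j z ^ 2 := by rw [h1, ← h]; ring
  rcases sq_eq_sq_iff_eq_or_eq_neg.1 h2 with h3 | h3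
  · exact Or.inl h3
  · right; rw [h3, gx_neg j hz]

lemma exists_sqrt (w : ℂ) : ∃ z : ℂ, z ^ 2 = w := ⟨sqr w, sqr_sq w⟩

lemma not_mem_Din {j : ℕ} {z : ℂ} (hz : 1 ≤ ‖z‖) : gx j z ∉ Din j := by
  rintro ⟨w, hw, h⟩
  have := gx_injective j h
  subst this
  rw [mem_ball_zero_iff] at hw
  linarith

lemma Din_step {j : ℕ} {w : ℂ} (hw : w ∈ Din j) : w ^ 2 - aa (j + 1) ∈ Din (j + 1) := by
  by_contra hcon
  have h1 : w ^ 2 - aa (j + 1) = gx (j + 1) (gxi (j + 1) (w ^ 2 - aa (j + 1))) :=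
    (gx_gxi _ _).symm
  set ζ := gxi (j + 1) (w ^ 2 - aa (j + 1)) with hζ
  have h2 : 1 ≤ ‖ζ‖ := by
    by_contra hlt
    push Not at hlt
    exact hcon ⟨ζ, mem_ball_zero_iff.2 hlt, h1.symm⟩
  obtain ⟨z, hz⟩ := exists_sqrt ζ
  have h3 : 1 ≤ ‖z‖ := by
    rw [← hz, norm_pow] at h2
    by_contra hlt
    push Not at hlt
    nlinarith [norm_nonneg z]
  rw [← hz] at h1
  rcases eq_or_of_sq h3 h1 with h4 | h4
  · rw [h4] at hw; exact not_mem_Din h3 hw
  · rw [h4] at hw; exact not_mem_Din (by rwa [norm_neg]) hw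

lemma eta_back {j : ℕ} {w : ℂ} (hw : w ^ 2 - aa (j + 1) ∈ eta (j + 1)) : w ∈ eta j := by
  obtain ⟨ζ, hζ, h1⟩ := hw
  obtain ⟨z, hz⟩ := exists_sqrt ζ
  rw [mem_sphere_zero_iff_norm] at hζ
  have h3 : ‖z‖ = 1 := by
    rw [← hz, norm_pow] at hζ
    have := norm_nonneg z
    nlinarith
  rw [← hz] at h1
  rcases eq_or_of_sq h3.ge h1.symm with h4 | h4
  · exact ⟨z, mem_sphere_zero_iff_norm.2 h3, h4.symm⟩
  · exact ⟨-z, mem_sphere_zero_iff_norm.2 (by rwa [norm_neg]), h4.symm⟩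

/-- orbits under the quadratic maps -/
noncomputable def orb : ℕ → ℂ → ℂ
  | 0, w => w
  | j + 1, w => orb j w ^ 2 - aa (j + 1)

lemma orb_Din {w : ℂ} (hw : w ∈ Din 0) (j : ℕ) : orb j w ∈ Din j := by
  induction j with
  | zero => exact hw
  | succ j ih => exact Din_step ih

lemma orb_gx {z : ℂ} (hz : 1 ≤ ‖z‖) (j : ℕ) : orb j (gx 0 z) = gx j (z ^ 2 ^ j) := by
  induction j with
  | zero => simp [orb]
  | succ j ih =>
    have h1 : 1 ≤ ‖z ^ 2 ^ j‖ := by rw [norm_pow]; exact one_le_pow₀ hz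
    rw [orb, ih, gx_eq j h1, ← pow_mul, ← pow_succ]
    ring

/-- finite Blaschke products -/
noncomputable def Bl : ℕ → ℂ → ℂ
  | 0, z => z
  | j + 1, z => mob (al (j + 1)) (Bl j z ^ 2)

lemma mob_closed {α : ℝ} (h0 : 0 ≤ α) (h1 : α < 1) {z : ℂ} (hz : z ∈ closedBall (0 : ℂ) 1) :
    mob α z ∈ closedBall (0 : ℂ) 1 := by
  have hne := norm_pos_iff.2 (den_ne_zero h0 h1 hz)
  have h2 := mob_norm_sq h0 h1 hz
  rw [mem_closedBall_zero_iff] at *
  have h3 : 0 ≤ (1 - ‖z‖ ^ 2) * ((1 - α ^ 2) / ‖1 - α * z‖ ^ 2) := by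
    apply mul_nonneg
    · nlinarith [norm_nonneg z]
    · apply div_nonneg _ (by positivity)
      nlinarith
  rw [← h2] at h3
  by_contra hcon
  push Not at hcon
  nlinarith

lemma al_lt (j : ℕ) : al j < 1 := by linarith [al_le j]

lemma Bl_mem {z : ℂ} (hz : z ∈ closedBall (0 : ℂ) 1) (j : ℕ) : Bl j z ∈ closedBall (0 : ℂ) 1 := by
  induction j with
  | zero => exact hz
  | succ j ih => exact mob_closed (al_pos _).le (al_lt _) (closedBall_sq ih)

lemma orb_KI {z : ℂ} (hz : z ∈ closedBall (0 : ℂ) 1) (j : ℕ) :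
    orb j (KI 0 z) = KI j (Bl j z) := by
  induction j with
  | zero => rfl
  | succ j ih =>
    rw [orb, ih, KI_eq j (Bl_mem hz j)]
    simp only [Bl]
    ring

/-! ### The image of the interior map is inside the curve -/

lemma KI_norm_le (j : ℕ) (z : ℂ) : ‖KI j z‖ ≤ 1.001 * ‖z‖ := by
  have h1 := KI_near j z
  have h2 := norm_sub_norm_le (KI j z) z
  have h3 := al_le j
  nlinarith [norm_nonneg z]

lemma KI_ball_subset : KI 0 '' ball 0 1 ⊆ Din 0 := by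
  rintro _ ⟨z, hz, rfl⟩
  by_contra hcon
  have h1 : KI 0 z = gx 0 (gxi 0 (KI 0 z)) := (gx_gxi _ _).symm
  set ζ := gxi 0 (KI 0 z) with hζ
  have h2 : 1 ≤ ‖ζ‖ := by
    by_contra hlt
    push Not at hlt
    exact hcon ⟨ζ, mem_ball_zero_iff.2 hlt, h1.symm⟩
  have hzc := ball_subset_closedBall hz
  have h3 : ∀ j, 0.98 ≤ ‖Bl j z‖ := by
    intro j
    have h4 := orb_KI hzc j
    rw [h1, orb_gx h2 j] at h4
    have h5 := gx_norm_ge j (ζ ^ 2 ^ j)
    have h6 : 1 ≤ ‖ζ ^ 2 ^ j‖ := by rw [norm_pow]; exact one_le_pow₀ h2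
    rw [h4] at h5
    have h7 := KI_norm_le j (Bl j z)
    linarith
  have h4 : ∀ j, (1.7 : ℝ) ^ j * (1 - ‖z‖ ^ 2) ≤ 1 - ‖Bl j z‖ ^ 2 := by
    intro j
    induction j with
    | zero => simp [Bl]
    | succ j ih =>
      have h5 := Bl_mem hzc j
      have h6 := closedBall_sq h5
      have h7 := mob_norm_sq (al_pos (j + 1)).le (al_lt (j + 1)) h6
      have h8 : Bl (j + 1) z = mob (al (j + 1)) (Bl j z ^ 2) := rfl
      rw [← h8] at h7
      rw [h7]
      have h9 := h3 j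
      rw [mem_closedBall_zero_iff] at h5 h6
      have h10 : 0.99 ≤ (1 - al (j + 1) ^ 2) / ‖1 - al (j + 1) * Bl j z ^ 2‖ ^ 2 := by
        have ha := al_le (j + 1)
        have ha0 := al_pos (j + 1)
        have hne := norm_pos_iff.2 (den_ne_zero ha0.le (al_lt (j + 1))
          (closedBall_sq (Bl_mem hzc j)))
        rw [le_div_iff₀ (by positivity)]
        have h11 : ‖1 - al (j + 1) * Bl j z ^ 2‖ ≤ 1 + al (j + 1) := by
          refine (norm_sub_le _ _).trans ?_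
          rw [norm_one, norm_mul, Complex.norm_real, Real.norm_of_nonneg ha0.le]
          nlinarith
        have h12 : ‖1 - al (j + 1) * Bl j z ^ 2‖ ^ 2 ≤ (1 + al (j + 1)) ^ 2 := by gcongr
        nlinarith
      rw [norm_pow]
      have h13 : 0 ≤ 1 - ‖Bl j z‖ ^ 2 := by nlinarith [norm_nonneg (Bl j z)]
      have h15 : 0.75 ≤ ‖Bl j z‖ ^ 2 := by nlinarith
      have h14 : 1.75 * (1 - ‖Bl j z‖ ^ 2) ≤ 1 - (‖Bl j z‖ ^ 2) ^ 2 := by
        have e : 1 - (‖Bl j z‖ ^ 2) ^ 2 = (1 + ‖Bl j z‖ ^ 2) * (1 - ‖Bl j z‖ ^ 2) := by ring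
        rw [e]
        exact mul_le_mul_of_nonneg_right (by linarith) h13
      calc (1.7 : ℝ) ^ (j + 1) * (1 - ‖z‖ ^ 2) = 1.7 * (1.7 ^ j * (1 - ‖z‖ ^ 2)) := by ring
        _ ≤ 1.7 * (1 - ‖Bl j z‖ ^ 2) := by gcongr
        _ ≤ (1.75 * (1 - ‖Bl j z‖ ^ 2)) * 0.99 := by nlinarith
        _ ≤ _ := mul_le_mul h14 h10 (by norm_num) (by nlinarith)
  have h5 : 0 < 1 - ‖z‖ ^ 2 := by
    rw [mem_ball_zero_iff] at hz
    nlinarith [norm_nonneg z]
  have h6 : Tendsto (fun j : ℕ => (1.7 : ℝ) ^ j * (1 - ‖z‖ ^ 2)) atTop atTop :=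
    (tendsto_pow_atTop_atTop_of_one_lt (by norm_num)).atTop_mul_const h5
  obtain ⟨j, hj⟩ := (h6.eventually (eventually_gt_atTop 1)).exists
  have := h4 j
  nlinarith [sq_nonneg ‖Bl j z‖]

/-! ### The boundary values of the interior map lie on the curve -/

lemma Bl_sphere {z : ℂ} (hz : ‖z‖ = 1) (j : ℕ) : ‖Bl j z‖ = 1 := by
  induction j with
  | zero => exact hz
  | succ j ih =>
    have h1 : Bl j z ^ 2 ∈ closedBall (0 : ℂ) 1 := by
      rw [mem_closedBall_zero_iff, norm_pow, ih]; norm_num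
    have h2 := mob_norm_sq (al_pos (j + 1)).le (al_lt (j + 1)) h1
    have h8 : Bl (j + 1) z = mob (al (j + 1)) (Bl j z ^ 2) := rfl
    rw [← h8, norm_pow, ih] at h2
    have h3 : ‖Bl (j + 1) z‖ ^ 2 = 1 := by linarith
    have := norm_nonneg (Bl (j + 1) z)
    nlinarith

lemma isClosed_eta (j : ℕ) : IsClosed (eta j) :=
  ((isCompact_sphere (0 : ℂ) 1).image (gx_continuous j)).isClosed

lemma near_eta (j : ℕ) {w : ℂ} (h1 : |‖w‖ - 1| ≤ 60 * al j) : ∃ y ∈ eta j, ‖y - w‖ ≤ 0.1 := by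
  have ha := al_le j
  have ha0 := al_pos j
  have hw := abs_le.1 h1
  have hw0 : 0 < ‖w‖ := by linarith
  have hne : (‖w‖ : ℂ) ≠ 0 := by exact_mod_cast hw0.ne'
  set ξ : ℂ := w / ‖w‖ with hξ
  have hξ1 : ‖ξ‖ = 1 := by
    rw [hξ, norm_div, Complex.norm_real, norm_norm, div_self hw0.ne']
  have h2 := gx_near j ξ
  have h3 : ‖ξ - w‖ ≤ 60 * al j := by
    have e : ξ - w = ξ * ((1 - ‖w‖ : ℝ) : ℂ) := by
      rw [hξ]; push_cast; field_simp
    rw [e, norm_mul, hξ1, one_mul, Complex.norm_real, Real.norm_eq_abs, abs_sub_comm]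
    exact h1
  refine ⟨gx j ξ, ⟨ξ, mem_sphere_zero_iff_norm.2 hξ1, rfl⟩, ?_⟩
  have h4 : ‖gx j ξ - w‖ ≤ ‖gx j ξ - ξ‖ + ‖ξ - w‖ := by
    have e : gx j ξ - w = (gx j ξ - ξ) + (ξ - w) := by ring
    rw [e]; exact norm_add_le _ _
  rw [hξ1] at h2
  linarith

lemma pull_back {j : ℕ} {w y : ℂ} {ρ : ℝ} (hw : 0.9 ≤ ‖w‖) (hρ : ρ ≤ 0.1) (hy : y ∈ eta (j + 1))
    (h : ‖y - (w ^ 2 - aa (j + 1))‖ ≤ ρ) : ∃ y' ∈ eta j, ‖y' - w‖ ≤ ρ / 1.6 := by
  obtain ⟨v, hv⟩ := exists_sqrt (y + aa (j + 1))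
  have key : ∀ v : ℂ, v ^ 2 = y + aa (j + 1) → ‖v - w‖ ≤ ‖v + w‖ →
      ∃ y' ∈ eta j, ‖y' - w‖ ≤ ρ / 1.6 := by
    intro v hv hle
    have hmem : v ∈ eta j := eta_back (by rw [hv]; simpa using hy)
    have h1 : ‖v - w‖ * ‖v + w‖ ≤ ρ := by
      rw [← norm_mul]
      have e : (v - w) * (v + w) = y - (w ^ 2 - aa (j + 1)) := by
        have : (v - w) * (v + w) = v ^ 2 - w ^ 2 := by ring
        rw [this, hv]; ring
      rw [e]; exact h
    have h2 : 2 * ‖w‖ ≤ ‖v + w‖ + ‖v - w‖ := by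
      have e : (2 : ℂ) * w = (v + w) - (v - w) := by ring
      have := norm_sub_le (v + w) (v - w)
      rw [← e, norm_mul, Complex.norm_ofNat] at this
      exact this
    have h3 : 0.9 ≤ ‖v + w‖ := by linarith
    have h4 : ‖v - w‖ ≤ 0.12 := by
      have := norm_nonneg (v - w)
      nlinarith
    have h5 : 1.6 ≤ ‖v + w‖ := by linarith
    refine ⟨v, hmem, ?_⟩
    rw [le_div_iff₀ (by norm_num)]
    have := norm_nonneg (v - w)
    nlinarith
  rcases le_total ‖v - w‖ ‖v + w‖ with hle | hle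
  · exact key v hv hle
  · refine key (-v) (by rw [neg_sq, hv]) ?_
    have e1 : -v - w = -(v + w) := by ring
    have e2 : -v + w = -(v - w) := by ring
    rw [e1, e2, norm_neg, norm_neg]
    exact hle

lemma KI_sphere_mem {z : ℂ} (hz : ‖z‖ = 1) : KI 0 z ∈ eta 0 := by
  have hzc : z ∈ closedBall (0 : ℂ) 1 := by rw [mem_closedBall_zero_iff, hz]
  have hn : ∀ j, |‖orb j (KI 0 z)‖ - 1| ≤ 60 * al j := by
    intro j
    rw [orb_KI hzc j]
    have h1 := KI_near j (Bl j z)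
    have h2 := abs_norm_sub_norm_le (KI j (Bl j z)) (Bl j z)
    rw [Bl_sphere hz j] at h1 h2
    linarith
  have key : ∀ n j : ℕ, ∃ y ∈ eta j, ‖y - orb j (KI 0 z)‖ ≤ 0.1 / 1.6 ^ n := by
    intro n
    induction n with
    | zero =>
      intro j
      rw [pow_zero, div_one]
      exact near_eta j (hn j)
    | succ n ih =>
      intro j
      obtain ⟨y, hy, h1⟩ := ih (j + 1)
      have h2 : 0.9 ≤ ‖orb j (KI 0 z)‖ := by
        have := (abs_le.1 (hn j)).1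
        linarith [al_le j]
      have h3 : (0.1 : ℝ) / 1.6 ^ n ≤ 0.1 := by
        apply div_le_self (by norm_num)
        exact one_le_pow₀ (by norm_num)
      obtain ⟨y', hy', h4⟩ := pull_back h2 h3 hy h1
      refine ⟨y', hy', h4.trans (le_of_eq ?_)⟩
      rw [pow_succ]
      field_simp
  have hcl : KI 0 z ∈ closure (eta 0) := by
    rw [Metric.mem_closure_iff]
    intro ε hε
    have hlim : Tendsto (fun n : ℕ => (0.1 : ℝ) / 1.6 ^ n) atTop (𝓝 0) :=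
      tendsto_const_nhds.div_atTop (tendsto_pow_atTop_atTop_of_one_lt (by norm_num))
    obtain ⟨n, hn'⟩ := (hlim.eventually (eventually_lt_nhds hε)).exists
    obtain ⟨y, hy, h1⟩ := key n 0
    refine ⟨y, hy, ?_⟩
    rw [dist_comm, dist_eq_norm]
    exact h1.trans_lt hn'
  rwa [(isClosed_eta 0).closure_eq] at hcl

lemma eta_disjoint (j : ℕ) {w : ℂ} (hw : w ∈ eta j) : w ∉ Din j := by
  obtain ⟨z, hz, rfl⟩ := hw
  rw [mem_sphere_zero_iff_norm] at hz
  exact not_mem_Din hz.ge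

lemma isOpen_Din (j : ℕ) : IsOpen (Din j) := (gH j).isOpenMap _ isOpen_ball

lemma isConnected_Din (j : ℕ) : IsConnected (Din j) :=
  ((convex_ball (0 : ℂ) 1).isConnected ⟨0, mem_ball_self one_pos⟩).image _
    (gx_continuous j).continuousOn

theorem KI_image : KI 0 '' ball 0 1 = Din 0 := by
  apply Subset.antisymm KI_ball_subset
  apply (isConnected_Din 0).isPreconnected.subset_of_closure_inter_subset
  · exact (KI 0).isOpenMap _ isOpen_ball
  · refine ⟨KI 0 0, KI_ball_subset ⟨0, mem_ball_self one_pos, rfl⟩, ⟨0, mem_ball_self one_pos, rfl⟩⟩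
  · rintro w ⟨hw1, hw2⟩
    have h1 : closure (KI 0 '' ball (0 : ℂ) 1) ⊆ KI 0 '' closedBall 0 1 := by
      apply closure_minimal (image_mono ball_subset_closedBall)
      exact ((isCompact_closedBall (0 : ℂ) 1).image (KI 0).continuous).isClosed
    obtain ⟨z, hz, rfl⟩ := h1 hw1
    rw [mem_closedBall_zero_iff] at hz
    rcases lt_or_eq_of_le hz with h2 | h2
    · exact ⟨z, mem_ball_zero_iff.2 h2, rfl⟩
    · exact (eta_disjoint 0 (KI_sphere_mem h2) hw2).elim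

end Pool.Agent.H56.Fekete
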