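import Mathlib

/-!
# Weil-Petersson quasicircles and Fekete points

General definitions for Jordan curves in the plane.
-/

open Complex Metric Set Filter MeasureTheory
open scoped ENNReal Topology

namespace Pool.Agent.H56.FeketeDefs

/-- `η` is a (bounded) Jordan curve: a homeomorphic image of the unit circle. -/
def IsJordanCurve (η : Set ℂ) : Prop :=
  ∃ γ : Circle → ℂ, Continuous γ ∧ Function.Injective γ ∧ range γ = η

/-- `D` and `D'` are the interior and the exterior of the curve `η`: the bounded and the unbounded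
connected component of the complement. -/
structure IsInteriorExterior (η D D' : Set ℂ) : Prop where
  isOpen_int : IsOpen D
  isConnected_int : IsConnected D
  isBounded_int : Bornology.IsBounded D
  isOpen_ext : IsOpen D'
  isConnected_ext : IsConnected D'
  not_isBounded_ext : ¬ Bornology.IsBounded D'
  disjoint : Disjoint D D'
  union : D ∪ D' = ηᶜ

/-- `f` is the Riemann map of the unit disc onto `D` with `f(0) = 0`, `f'(0) > 0`. -/
structure IsInteriorMap (D : Set ℂ) (f : ℂ → ℂ) : Prop where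
  differentiableOn : DifferentiableOn ℂ f (ball 0 1)
  bijOn : BijOn f (ball 0 1) D
  map_zero : f 0 = 0
  deriv_im : (deriv f 0).im = 0
  deriv_re : 0 < (deriv f 0).re

/-- `g` is the Riemann map of `{|z| > 1}` onto `D'` with `g(z) = r z + O(1)` at infinity, `r > 0`.
The number `r` is the capacity of the curve. -/
structure IsExteriorMap (D' : Set ℂ) (g : ℂ → ℂ) (r : ℝ) : Prop where
  differentiableOn : DifferentiableOn ℂ g {z | 1 < ‖z‖}
  bijOn : BijOn g {z | 1 < ‖z‖} D'
  r_pos : 0 < r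
  isBigO : (fun z => g z - r * z) =O[Bornology.cobounded ℂ] fun _ => (1 : ℝ)

/-- The Dirichlet energy `E_Ω(u) = (1/π) ∫_Ω |∇u|² dA`. -/
noncomputable def dirichletEnergy (Ω : Set ℂ) (u : ℂ → ℝ) : ℝ≥0∞ :=
  ENNReal.ofReal (1 / Real.pi) * ∫⁻ z in Ω, ‖fderiv ℝ u z‖ₑ ^ 2

/-- The Loewner energy
`I^L(η) = E_{|z|<1}(log|f'|) + E_{|z|>1}(log|g'|) + 4 log (r / f'(0))`. -/
noncomputable def loewnerEnergy (f g : ℂ → ℂ) (r : ℝ) : EReal :=
  (dirichletEnergy (ball 0 1) (fun z => Real.log ‖deriv f z‖) : EReal) +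
    (dirichletEnergy {z | 1 < ‖z‖} (fun z => Real.log ‖deriv g z‖) : EReal) +
    ((4 * Real.log (r / (deriv f 0).re) : ℝ) : EReal)

/-- `η` is a Weil-Petersson quasicircle of capacity `r` whose interior contains `0`: a Jordan curve
of finite Loewner energy. -/
def IsWeilPetersson (η : Set ℂ) (r : ℝ) : Prop :=
  IsJordanCurve η ∧ ∃ (D D' : Set ℂ) (f g : ℂ → ℂ), IsInteriorExterior η D D' ∧ 0 ∈ D ∧
    IsInteriorMap D f ∧ IsExteriorMap D' g r ∧ loewnerEnergy f g r < ⊤

/-- The maximal discriminant: the supremum of `∏_{j<k} |w_j - w_k|²` over `w_1, ..., w_n ∈ η`. -/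
noncomputable def maxDiscriminant (η : Set ℂ) (n : ℕ) : ℝ :=
  sSup {x : ℝ | ∃ w : Fin n → ℂ, (∀ j, w j ∈ η) ∧
    x = ∏ j, ∏ k ∈ Finset.Ioi j, ‖w j - w k‖ ^ 2}

/-- `F_n(η) = 8 log (Z_{n,∞}(η) / n^n)`. -/
noncomputable def feketeEnergy (η : Set ℂ) (n : ℕ) : ℝ :=
  8 * Real.log (maxDiscriminant η n / (n : ℝ) ^ n)

end Pool.Agent.H56.FeketeDefs
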