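import Pool.Agent.H56.Fekete.Curve

/-!
# Lower bound for the discriminant
-/

namespace Pool.Agent.H56.Fekete

open Complex Metric Set Filter Topology

/-- product of all mutual distances (ordered pairs) -/
noncomputable def dd {ι : Type} [Fintype ι] [DecidableEq ι] (w : ι → ℂ) : ℝ :=
  ∏ x, ∏ y, if x = y then 1 else ‖w x - w y‖

lemma dd_nonneg {ι : Type} [Fintype ι] [DecidableEq ι] (w : ι → ℂ) : 0 ≤ dd w := by
  unfold dd
  apply Finset.prod_nonneg
  intro x _
  apply Finset.prod_nonneg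
  intro y _
  split_ifs
  · norm_num
  · exact norm_nonneg _

/-- preimages under the quadratic map -/
def dbl {ι : Type} (v : ι → ℂ) (p : ι × Bool) : ℂ := if p.2 then v p.1 else -v p.1

lemma dd_dbl {ι : Type} [Fintype ι] [DecidableEq ι] (S v : ι → ℂ) (a : ℂ)
    (h : ∀ x, v x ^ 2 = S x + a) :
    dd (dbl v) = dd S ^ 2 * ∏ x, (4 * ‖S x + a‖) := by
  have h1 : dd (dbl v) = ∏ x, ∏ y, (if x = y then 4 * ‖S x + a‖ else ‖S x - S y‖ ^ 2) := by
    unfold dd
    rw [Fintype.prod_prod_type]
    apply Finset.prod_congr rfl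
    intro x _
    have e : ∀ b : Bool, (∏ y : ι × Bool, if (x, b) = y then (1 : ℝ)
        else ‖dbl v (x, b) - dbl v y‖) =
        ∏ y : ι, ∏ c : Bool, if (x, b) = (y, c) then (1 : ℝ)
        else ‖dbl v (x, b) - dbl v (y, c)‖ := by
      intro b; rw [Fintype.prod_prod_type]
    simp only [e]
    rw [Finset.prod_comm]
    apply Finset.prod_congr rfl
    intro y _
    rw [Fintype.prod_bool, Fintype.prod_bool, Fintype.prod_bool]
    by_cases hxy : x = y
    · subst hxy
      simp only [dbl, if_true, Prod.mk.injEq, Bool.false_eq_true, Bool.true_eq_false,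
        and_false, if_false, and_true, true_and, one_mul, mul_one]
      rw [← h x, norm_pow]
      have e1 : v x - -v x = 2 * v x := by ring
      have e2 : -v x - v x = -(2 * v x) := by ring
      rw [e1, e2, norm_neg, norm_mul, Complex.norm_ofNat]
      ring
    · simp only [dbl, if_true, Prod.mk.injEq, hxy, false_and, if_false, Bool.false_eq_true]
      have e3 : S x - S y = (v x - v y) * (v x + v y) := by
        have := h x
        have := h y
        linear_combination h y - h x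
      have e4 : v x - -v y = v x + v y := by ring
      have e5 : -v x - v y = -(v x + v y) := by ring
      have e6 : -v x - -v y = -(v x - v y) := by ring
      rw [e3, e4, e5, e6, norm_neg, norm_neg, norm_mul]
      ring
  rw [h1]
  unfold dd
  rw [← Finset.prod_pow, ← Finset.prod_mul_distrib]
  apply Finset.prod_congr rfl
  intro x _
  rw [← Finset.prod_pow]
  have h2 : (4 * ‖S x + a‖) = ∏ y, (if x = y then 4 * ‖S x + a‖ else 1) := by
    rw [Finset.prod_ite_eq]; simp
  conv_rhs => rw [h2]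
  rw [← Finset.prod_mul_distrib]
  apply Finset.prod_congr rfl
  intro y _
  split_ifs <;> ring

/-- forward iteration of the quadratic maps from level `i` -/
noncomputable def fo : ℕ → ℕ → ℂ → ℂ
  | _, 0, w => w
  | i, m + 1, w => fo (i + 1) m (w ^ 2 - aa (i + 1))

lemma aa_sq_le (i : ℕ) : aa i ^ 2 ≤ aa (i + 1) := by
  have h1 := aa_bounds i
  have h2 := aa_bounds (i + 1)
  have h3 := al_succ i
  have h4 := al_pos i
  have h5 := al_le i
  have h6 := aa_pos i
  nlinarith [h1.1, h1.2, h2.1, h2.2]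

lemma fo_real (m : ℕ) : ∀ (i : ℕ) (x : ℝ), -aa i ≤ x → x ≤ 0 →
    ∃ y : ℝ, fo i m x = y ∧ y ≤ 0 := by
  induction m with
  | zero => intro i x _ hx; exact ⟨x, rfl, hx⟩
  | succ m ih =>
    intro i x h1 h2
    have h3 := aa_sq_le i
    have h4 := aa_pos i
    obtain ⟨y, hy, hy0⟩ := ih (i + 1) (x ^ 2 - aa (i + 1)) (by nlinarith) (by nlinarith)
    refine ⟨y, ?_, hy0⟩
    rw [← hy]
    simp only [fo]
    push_cast
    rfl

/-! ### The real points `g_j(1)` -/

lemma KE_one_im (j : ℕ) : (KE j 1).im = 0 := by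
  have hc : Continuous fun x : ℝ => (KE j (x : ℂ)).im := by
    have := (KE j).continuous
    fun_prop
  have h1 : Tendsto (fun x : ℝ => (KE j (x : ℂ)).im) (𝓝[<] 1) (𝓝 (KE j ((1 : ℝ) : ℂ)).im) :=
    (hc.tendsto 1).mono_left nhdsWithin_le_nhds
  have h2 : (fun x : ℝ => (KE j (x : ℂ)).im) =ᶠ[𝓝[<] 1] fun _ => 0 := by
    have h3 : Set.Ioo (0 : ℝ) 1 ∈ 𝓝[<] (1 : ℝ) := Ioo_mem_nhdsLT one_pos
    filter_upwards [h3] with x hx
    have hx1 : |x| < 1 := by rw [abs_of_pos hx.1]; exact hx.2
    have hxb : (x : ℂ) ∈ ball (0 : ℂ) 1 := by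
      rw [mem_ball_zero_iff, Complex.norm_real]; exact hx1
    rw [(KE_ext j).eq hxb]
    exact (fe_cls j).real x hx1
  have h4 := (tendsto_congr' h2).1 h1
  have := tendsto_nhds_unique h4 tendsto_const_nhds
  simpa using this

/-- the real boundary point -/
noncomputable def cr (j : ℕ) : ℝ := (gx j 1).re

lemma gx_one (j : ℕ) : gx j 1 = (cr j : ℂ) := by
  apply Complex.ext
  · rfl
  · rw [Complex.ofReal_im]
    unfold gx
    rw [inv_one, Complex.inv_im, KE_one_im]
    simp

lemma cr_near (j : ℕ) : 0.9 ≤ cr j := by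
  have h1 := gx_near j 1
  rw [norm_one, gx_one] at h1
  have h2 := (Complex.abs_re_le_norm _).trans h1
  rw [Complex.sub_re, Complex.ofReal_re, Complex.one_re] at h2
  have := (abs_le.1 h2).1
  linarith [al_le j]

lemma cr_sq (j : ℕ) : cr j ^ 2 = cr (j + 1) + aa (j + 1) := by
  have h1 := gx_eq j (z := 1) (by simp)
  rw [one_pow, gx_one, gx_one] at h1
  exact_mod_cast h1

lemma cr_ge_one (j : ℕ) : 1 ≤ cr j := by
  by_contra hcon
  push Not at hcon
  have h1 : ∀ m : ℕ, cr (j + m) ≤ cr j ^ 2 ^ m := by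
    intro m
    induction m with
    | zero => simp
    | succ m ih =>
      have h2 := cr_sq (j + m)
      have h3 := cr_near (j + m)
      have h4 := aa_pos (j + m + 1)
      have h5 : cr (j + m) ^ 2 ≤ (cr j ^ 2 ^ m) ^ 2 := pow_le_pow_left₀ (by linarith) ih 2
      rw [← pow_mul, ← pow_succ] at h5
      have e : j + (m + 1) = j + m + 1 := by ring
      rw [e]
      linarith
  have h0 := cr_near j
  have h2 : Tendsto (fun m : ℕ => cr j ^ 2 ^ m) atTop (𝓝 0) := by
    have h3 := tendsto_pow_atTop_nhds_zero_of_lt_one (r := cr j) (by linarith) hcon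
    exact h3.comp (tendsto_pow_atTop_atTop_of_one_lt (by norm_num))
  obtain ⟨m, hm⟩ := (h2.eventually (eventually_lt_nhds (show (0 : ℝ) < 0.9 by norm_num))).exists
  have := cr_near (j + m)
  linarith [h1 m]

lemma cr_mem (j : ℕ) : (cr j : ℂ) ∈ eta j :=
  ⟨1, by simp, gx_one j⟩

/-! ### The configurations -/

lemma config (m : ℕ) : ∀ i : ℕ, ∃ (ι : Type) (_ : Fintype ι) (_ : DecidableEq ι) (S : ι → ℂ),
    Fintype.card ι = 2 ^ m ∧ (∀ x, S x ∈ eta i) ∧
    (∀ X, ∏ x, (X - S x) = fo i m X - cr (i + m)) ∧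
    ((2 : ℝ) ^ m) ^ (2 ^ m) * (1 + aa (i + m)) ^ (2 ^ m / 2) ≤ dd S := by
  induction m with
  | zero =>
    intro i
    refine ⟨Unit, inferInstance, inferInstance, fun _ => cr i, by simp, fun _ => cr_mem i,
      fun X => by simp [fo], ?_⟩
    unfold dd
    simp
  | succ m ih =>
    intro i
    obtain ⟨ι, _, _, S, hcard, hmem, hpoly, hdd⟩ := ih (i + 1)
    choose v hv using fun x => exists_sqrt (S x + aa (i + 1))
    have e0 : i + (m + 1) = i + 1 + m := by ring
    refine ⟨ι × Bool, inferInstance, inferInstance, dbl v, ?_, ?_, ?_, ?_⟩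
    · rw [Fintype.card_prod, hcard, Fintype.card_bool, pow_succ]
    · intro p
      apply eta_back
      have e : dbl v p ^ 2 = S p.1 + aa (i + 1) := by
        unfold dbl
        split_ifs
        · exact hv _
        · rw [neg_sq]; exact hv _
      rw [e, add_sub_cancel_right]
      exact hmem _
    · intro X
      rw [Fintype.prod_prod_type, e0]
      have h1 := hpoly (X ^ 2 - aa (i + 1))
      change _ = fo (i + 1) m (X ^ 2 - aa (i + 1)) - _
      rw [← h1]
      apply Finset.prod_congr rfl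
      intro x _
      rw [Fintype.prod_bool]
      simp only [dbl, if_true, Bool.false_eq_true, if_false]
      have := hv x
      linear_combination (-1 : ℂ) * this
    · rw [dd_dbl S v (aa (i + 1)) hv, Finset.prod_mul_distrib, Finset.prod_const,
        Finset.card_univ, hcard, e0]
      have h1 := hpoly (-(aa (i + 1) : ℂ))
      have h2 : ∏ x, ‖S x + aa (i + 1)‖ = ‖fo (i + 1) m (-(aa (i + 1) : ℂ)) - cr (i + 1 + m)‖ := by
        rw [← h1, norm_prod]
        apply Finset.prod_congr rfl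
        intro x _
        rw [← norm_neg]
        congr 1
        ring
      have hcr := cr_ge_one (i + 1 + m)
      have ha := aa_pos (i + 1 + m)
      obtain ⟨y, hy, hy0⟩ := fo_real m (i + 1) (-aa (i + 1)) le_rfl (by linarith [aa_pos (i + 1)])
      push_cast at hy
      have h3 : ‖fo (i + 1) m (-(aa (i + 1) : ℂ)) - cr (i + 1 + m)‖ = cr (i + 1 + m) - y := by
        rw [hy, ← Complex.ofReal_sub, Complex.norm_real, Real.norm_eq_abs, abs_sub_comm,
          abs_of_nonneg (by linarith)]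
      rw [h2, h3]
      have hpow : (((2 : ℝ) ^ (m + 1)) ^ 2 ^ (m + 1)) = (((2 : ℝ) ^ m) ^ 2 ^ m) ^ 2 * 4 ^ 2 ^ m := by
        rw [show (4 : ℝ) = 2 ^ 2 by norm_num, ← pow_mul, ← pow_mul, ← pow_mul, ← pow_mul,
          ← pow_add]
        congr 1
        rw [pow_succ]
        ring
      rw [hpow]
      have hdd0 := dd_nonneg S
      rcases Nat.eq_zero_or_pos m with hm | hm
      · subst hm
        have hy' : y = -aa (i + 1) := by
          have : fo (i + 1) 0 (-(aa (i + 1) : ℂ)) = -(aa (i + 1) : ℂ) := rfl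
          rw [this] at hy
          exact_mod_cast hy.symm
        simp only [pow_zero, pow_one, one_mul, one_pow, zero_add, add_zero] at hdd hcr ha ⊢
        norm_num at hdd ⊢
        rw [hy']
        have h5 : 1 ≤ dd S ^ 2 := one_le_pow₀ hdd
        have h6 : 1 + aa (i + 1) ≤ cr (i + 1) + aa (i + 1) := by linarith
        nlinarith
      · have hhalf : 2 ^ (m + 1) / 2 = 2 ^ m := by
          rw [pow_succ]; exact Nat.mul_div_cancel _ (by norm_num)
        have hhalf2 : 2 ^ m / 2 * 2 = 2 ^ m := by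
          obtain ⟨k, rfl⟩ : ∃ k, m = k + 1 := ⟨m - 1, by omega⟩
          rw [pow_succ, Nat.mul_div_cancel _ (by norm_num)]
        rw [hhalf]
        have h4 : ((((2 : ℝ) ^ m) ^ (2 ^ m)) * (1 + aa (i + 1 + m)) ^ (2 ^ m / 2)) ^ 2 ≤
            dd S ^ 2 := pow_le_pow_left₀ (by positivity) hdd 2
        rw [mul_pow, ← pow_mul (1 + aa (i + 1 + m)), hhalf2] at h4
        have h5 : 1 ≤ cr (i + 1 + m) - y := by linarith
        calc (((2 : ℝ) ^ m) ^ 2 ^ m) ^ 2 * 4 ^ 2 ^ m * (1 + aa (i + 1 + m)) ^ 2 ^ m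
            = ((((2 : ℝ) ^ m) ^ 2 ^ m) ^ 2 * (1 + aa (i + 1 + m)) ^ 2 ^ m) * (4 ^ 2 ^ m * 1) := by
              ring
          _ ≤ dd S ^ 2 * (4 ^ 2 ^ m * (cr (i + 1 + m) - y)) := by gcongr

end Pool.Agent.H56.Fekete
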