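import Pool.Agent.H56.Fekete.Defs
import Pool.Agent.H56.Fekete.Curve

/-!
# Finiteness of the Loewner energy
-/

namespace Pool.Agent.H56.Fekete

open Complex Metric Set Filter Topology MeasureTheory FeketeDefs
open scoped ENNReal

lemma fderiv_log_norm_le {F : ℂ → ℂ} {F' z : ℂ} (hF : HasDerivAt F F' z)
    (hs : F z ∈ slitPlane) : ‖fderiv ℝ (fun w => Real.log ‖F w‖) z‖ ≤ ‖F' / F z‖ := by
  have h1 : HasDerivAt (fun w => Complex.log (F w)) (F' / F z) z := hF.clog hs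
  have h2 : HasFDerivAt (fun w => Complex.log (F w))
      ((ContinuousLinearMap.toSpanSingleton ℂ (F' / F z)).restrictScalars ℝ) z :=
    h1.hasFDerivAt.restrictScalars ℝ
  have h3 := Complex.reCLM.hasFDerivAt.comp z h2
  have e : (fun w => Real.log ‖F w‖) = (Complex.reCLM ∘ fun w => Complex.log (F w)) := by
    ext1 w
    simp [Complex.log_re]
  rw [e, h3.fderiv]
  apply ContinuousLinearMap.opNorm_le_bound _ (norm_nonneg _)
  intro v
  have h4 : |(v * (F' / F z)).re| ≤ ‖v * (F' / F z)‖ := Complex.abs_re_le_norm _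
  rw [norm_mul, mul_comm ‖v‖] at h4
  change |(v • (F' / F z)).re| ≤ _
  rw [smul_eq_mul]
  exact h4

/-! ### Integrals -/

lemma int_disc : Integrable (fun z : ℂ => (fun y : ℝ => if y < 1 then
    (1 - y ^ 2) ^ (-(4 / 5) : ℝ) else 0) ‖z‖) := by
  refine (integrable_fun_norm_addHaar (μ := (volume : Measure ℂ)) (f := fun y : ℝ => if y < 1 then
    (1 - y ^ 2) ^ (-(4 / 5) : ℝ) else 0)).2 ?_
  rw [Complex.finrank_real_complex]
  have h0 : IntegrableOn (fun y : ℝ => (1 - y) ^ (-(4 / 5) : ℝ)) (Ioc 0 1) := by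
    have h1 : IntervalIntegrable (fun x : ℝ => x ^ (-(4 / 5) : ℝ)) volume 0 1 :=
      intervalIntegral.intervalIntegrable_rpow' (by norm_num)
    have h2 := h1.comp_sub_left 1
    simp only [sub_zero, sub_self] at h2
    exact (intervalIntegrable_iff_integrableOn_Ioc_of_le zero_le_one).1 h2.symm
  have h1 : IntegrableOn (fun y : ℝ => y ^ (2 - 1) •
      (if y < 1 then (1 - y ^ 2) ^ (-(4 / 5) : ℝ) else 0)) (Ioc 0 1) := by
    refine Integrable.mono' h0 ?_ ?_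
    · apply Measurable.aestronglyMeasurable
      apply Measurable.fun_smul (by fun_prop)
      exact Measurable.ite measurableSet_Iio (by fun_prop) measurable_const
    · filter_upwards [ae_restrict_mem measurableSet_Ioc] with y hy
      rw [norm_smul, Real.norm_eq_abs, Real.norm_eq_abs, pow_one, abs_of_pos hy.1]
      split_ifs with h
      · have h3 : 0 < 1 - y := by linarith
        have h4 : 1 - y ≤ 1 - y ^ 2 := by nlinarith [hy.1]
        rw [abs_of_nonneg (Real.rpow_nonneg (by linarith) _)]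
        have h5 : (1 - y ^ 2) ^ (-(4 / 5) : ℝ) ≤ (1 - y) ^ (-(4 / 5) : ℝ) :=
          Real.rpow_le_rpow_of_nonpos h3 h4 (by norm_num)
        calc y * (1 - y ^ 2) ^ (-(4 / 5) : ℝ) ≤ 1 * (1 - y) ^ (-(4 / 5) : ℝ) :=
              mul_le_mul hy.2 h5 (Real.rpow_nonneg (by linarith) _) zero_le_one
          _ = _ := one_mul _
      · rw [abs_zero, mul_zero]
        exact Real.rpow_nonneg (by linarith [hy.2]) _
  have h2 : IntegrableOn (fun y : ℝ => y ^ (2 - 1) •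
      (if y < 1 then (1 - y ^ 2) ^ (-(4 / 5) : ℝ) else 0)) (Ioi 1) := by
    refine (integrableOn_zero (μ := volume)).congr_fun ?_ measurableSet_Ioi
    intro y hy
    have : ¬ y < 1 := not_lt.2 (le_of_lt hy)
    simp [this]
  rw [← Ioc_union_Ioi_eq_Ioi (zero_le_one (α := ℝ))]
  exact h1.union h2

lemma int_ext : Integrable (fun z : ℂ => (fun y : ℝ => if 1 < y then
    y⁻¹ ^ 4 * (1 - y⁻¹ ^ 2) ^ (-(4 / 5) : ℝ) else 0) ‖z‖) := by
  refine (integrable_fun_norm_addHaar (μ := (volume : Measure ℂ)) (f := fun y : ℝ => if 1 < y then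
    y⁻¹ ^ 4 * (1 - y⁻¹ ^ 2) ^ (-(4 / 5) : ℝ) else 0)).2 ?_
  rw [Complex.finrank_real_complex]
  have hmeas : Measurable (fun y : ℝ => y ^ (2 - 1) •
      (if 1 < y then y⁻¹ ^ 4 * (1 - y⁻¹ ^ 2) ^ (-(4 / 5) : ℝ) else 0)) := by
    apply Measurable.fun_smul (by fun_prop)
    exact Measurable.ite measurableSet_Ioi (by fun_prop) measurable_const
  have h0 : IntegrableOn (fun y : ℝ => y ^ (2 - 1) •
      (if 1 < y then y⁻¹ ^ 4 * (1 - y⁻¹ ^ 2) ^ (-(4 / 5) : ℝ) else 0)) (Ioc 0 1) := by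
    refine (integrableOn_zero (μ := volume)).congr_fun ?_ measurableSet_Ioc
    intro y hy
    have : ¬ 1 < y := not_lt.2 hy.2
    simp [this]
  have h1 : IntegrableOn (fun y : ℝ => y ^ (2 - 1) •
      (if 1 < y then y⁻¹ ^ 4 * (1 - y⁻¹ ^ 2) ^ (-(4 / 5) : ℝ) else 0)) (Ioc 1 2) := by
    have h1' : IntegrableOn (fun y : ℝ => 2 * (y - 1) ^ (-(4 / 5) : ℝ)) (Ioc 1 2) := by
      have h1 : IntervalIntegrable (fun x : ℝ => x ^ (-(4 / 5) : ℝ)) volume 0 1 :=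
        intervalIntegral.intervalIntegrable_rpow' (by norm_num)
      have h2 := h1.comp_sub_right 1
      norm_num at h2
      exact ((intervalIntegrable_iff_integrableOn_Ioc_of_le (by norm_num)).1 h2).const_mul 2
    refine Integrable.mono' h1' hmeas.aestronglyMeasurable ?_
    filter_upwards [ae_restrict_mem measurableSet_Ioc] with y hy
    have hy1 : 1 < y := hy.1
    have hy0 : 0 < y := by linarith
    rw [norm_smul, Real.norm_eq_abs, Real.norm_eq_abs, pow_one, abs_of_pos hy0, if_pos hy1]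
    have hinv : y⁻¹ < 1 := inv_lt_one_of_one_lt₀ hy1
    have hinv0 : 0 < y⁻¹ := inv_pos.2 hy0
    have h3 : (y - 1) / 2 ≤ 1 - y⁻¹ ^ 2 := by
      have e : 1 - y⁻¹ ^ 2 = (y - 1) * (y + 1) / y ^ 2 := by field_simp; ring
      rw [e, div_le_div_iff₀ (by norm_num) (by positivity)]
      have h4 : y ^ 2 ≤ 2 * (y + 1) := by nlinarith [hy.2]
      nlinarith
    have h5 : (1 - y⁻¹ ^ 2) ^ (-(4 / 5) : ℝ) ≤ ((y - 1) / 2) ^ (-(4 / 5) : ℝ) :=
      Real.rpow_le_rpow_of_nonpos (by linarith) h3 (by norm_num)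
    have h6 : ((y - 1) / 2) ^ (-(4 / 5) : ℝ) ≤ 2 * (y - 1) ^ (-(4 / 5) : ℝ) := by
      rw [Real.div_rpow (by linarith) (by norm_num), div_eq_mul_inv,
        ← Real.rpow_neg (by norm_num), neg_neg, mul_comm]
      apply mul_le_mul_of_nonneg_right _ (Real.rpow_nonneg (by linarith) _)
      calc (2 : ℝ) ^ (4 / 5 : ℝ) ≤ 2 ^ (1 : ℝ) :=
            Real.rpow_le_rpow_of_exponent_le (by norm_num) (by norm_num)
        _ = 2 := Real.rpow_one 2
    have h7 : 0 ≤ (1 - y⁻¹ ^ 2) ^ (-(4 / 5) : ℝ) := by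
      apply Real.rpow_nonneg; linarith
    rw [abs_of_nonneg (by positivity), ← mul_assoc]
    have h8 : y * y⁻¹ ^ 4 ≤ 1 := by
      have : y * y⁻¹ ^ 4 = y⁻¹ ^ 3 := by field_simp
      rw [this]
      exact pow_le_one₀ hinv0.le hinv.le
    calc y * y⁻¹ ^ 4 * (1 - y⁻¹ ^ 2) ^ (-(4 / 5) : ℝ) ≤ 1 * (1 - y⁻¹ ^ 2) ^ (-(4 / 5) : ℝ) := by
          gcongr
      _ ≤ _ := by rw [one_mul]; exact h5.trans h6
  have h2 : IntegrableOn (fun y : ℝ => y ^ (2 - 1) •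
      (if 1 < y then y⁻¹ ^ 4 * (1 - y⁻¹ ^ 2) ^ (-(4 / 5) : ℝ) else 0)) (Ioi 2) := by
    have h2' : IntegrableOn (fun y : ℝ => 2 * y ^ (-3 : ℝ)) (Ioi 2) :=
      (integrableOn_Ioi_rpow_of_lt (by norm_num) (by norm_num)).const_mul 2
    refine Integrable.mono' h2' hmeas.aestronglyMeasurable ?_
    filter_upwards [ae_restrict_mem measurableSet_Ioi] with y hy
    have hy2 : 2 < y := hy
    have hy1 : 1 < y := by linarith
    have hy0 : 0 < y := by linarith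
    rw [norm_smul, Real.norm_eq_abs, Real.norm_eq_abs, pow_one, abs_of_pos hy0, if_pos hy1]
    have hinv0 : 0 < y⁻¹ := inv_pos.2 hy0
    have hinv : y⁻¹ ≤ 1 / 2 := by
      rw [inv_le_comm₀ hy0 (by norm_num)]; norm_num; exact hy2.le
    have h3 : (1 : ℝ) / 2 ≤ 1 - y⁻¹ ^ 2 := by nlinarith
    have h5 : (1 - y⁻¹ ^ 2) ^ (-(4 / 5) : ℝ) ≤ (1 / 2 : ℝ) ^ (-(4 / 5) : ℝ) :=
      Real.rpow_le_rpow_of_nonpos (by norm_num) h3 (by norm_num)
    have h6 : (1 / 2 : ℝ) ^ (-(4 / 5) : ℝ) ≤ 2 := by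
      rw [one_div, Real.inv_rpow (by norm_num), ← Real.rpow_neg (by norm_num), neg_neg]
      calc (2 : ℝ) ^ (4 / 5 : ℝ) ≤ 2 ^ (1 : ℝ) :=
            Real.rpow_le_rpow_of_exponent_le (by norm_num) (by norm_num)
        _ = 2 := Real.rpow_one 2
    have h7 : 0 ≤ (1 - y⁻¹ ^ 2) ^ (-(4 / 5) : ℝ) := by
      apply Real.rpow_nonneg; linarith
    rw [abs_of_nonneg (by positivity), ← mul_assoc]
    have h8 : y * y⁻¹ ^ 4 = y ^ (-3 : ℝ) := by
      rw [Real.rpow_neg hy0.le]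
      have : y ^ (3 : ℝ) = y ^ 3 := by norm_cast
      rw [this]
      field_simp
    rw [h8, mul_comm]
    apply mul_le_mul_of_nonneg_right (h5.trans h6) (Real.rpow_nonneg hy0.le _)
  rw [← Ioc_union_Ioi_eq_Ioi (zero_le_one (α := ℝ)),
    ← Ioc_union_Ioi_eq_Ioi (show (1 : ℝ) ≤ 2 by norm_num)]
  exact h0.union (h1.union h2)

lemma energy_lt_top {Ω : Set ℂ} (hΩ : MeasurableSet Ω) {u : ℂ → ℝ} {B : ℂ → ℝ}
    (hB : Integrable B) (h : ∀ z ∈ Ω, ‖fderiv ℝ u z‖ ^ 2 ≤ B z) :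
    dirichletEnergy Ω u < ⊤ := by
  unfold dirichletEnergy
  apply ENNReal.mul_lt_top ENNReal.ofReal_lt_top
  calc ∫⁻ z in Ω, ‖fderiv ℝ u z‖ₑ ^ 2 ≤ ∫⁻ z in Ω, ENNReal.ofReal (B z) := by
        apply setLIntegral_mono_ae' hΩ
        filter_upwards with z hz
        rw [← ofReal_norm, ← ENNReal.ofReal_pow (norm_nonneg _)]
        exact ENNReal.ofReal_le_ofReal (h z hz)
    _ ≤ ∫⁻ z, ENNReal.ofReal (B z) := setLIntegral_le_lintegral _ _
    _ < ⊤ := hB.lintegral_lt_top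

lemma wt_sq_eq {z : ℂ} (hz : ‖z‖ < 1) : wt z ^ 2 = (1 - ‖z‖ ^ 2) ^ (-(4 / 5) : ℝ) := by
  unfold wt
  rw [← Real.rpow_natCast, ← Real.rpow_mul (by nlinarith [norm_nonneg z])]
  norm_num

theorem interior_energy : dirichletEnergy (ball 0 1) (fun z => Real.log ‖deriv (fi 0) z‖) < ⊤ := by
  have hc := fi_cls 0
  refine energy_lt_top measurableSet_ball (int_disc.const_mul ((500 * al 0) ^ 2)) ?_
  intro z hz
  have h1 : HasDerivAt (deriv (fi 0)) (deriv (deriv (fi 0)) z) z :=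
    (hc.deriv_diff.differentiableAt (isOpen_ball.mem_nhds hz)).hasDerivAt
  have hs : deriv (fi 0) z ∈ slitPlane := slit_of_near ((hc.d1 z hz).trans (eps_le 0))
  have h2 := fderiv_log_norm_le h1 hs
  have h3 := h2.trans (hc.d2 z hz)
  rw [mem_ball_zero_iff] at hz
  simp only [hz, if_true]
  rw [← wt_sq_eq hz, ← mul_pow]
  exact pow_le_pow_left₀ (norm_nonneg _) h3 2

/-! ### Exterior energy -/

/-- derivative of the exterior map in the coordinate `1/z` -/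
noncomputable def Gd (u : ℂ) : ℂ := deriv (fe 0) u / quo (fe 0) u ^ 2

lemma quo_fe_ne {u : ℂ} (hu : u ∈ ball (0 : ℂ) 1) : quo (fe 0) u ≠ 0 := by
  rw [← norm_pos_iff]
  have := norm_ge_one_sub ((fe_cls 0).quo_near hu)
  linarith [eps_le 0]

lemma gx_hasDerivAt {z : ℂ} (hz : 1 < ‖z‖) : HasDerivAt (gx 0) (Gd z⁻¹) z := by
  have hz0 : z ≠ 0 := by rw [← norm_pos_iff]; linarith
  have hu : z⁻¹ ∈ ball (0 : ℂ) 1 := by
    rw [mem_ball_zero_iff, norm_inv]; exact inv_lt_one_of_one_lt₀ hz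
  have hc := fe_cls 0
  have hq := quo_fe_ne hu
  have h1 : HasDerivAt (fe 0) (deriv (fe 0) z⁻¹) z⁻¹ :=
    (hc.diff.differentiableAt (isOpen_ball.mem_nhds hu)).hasDerivAt
  have h2 : HasDerivAt (fun z : ℂ => fe 0 z⁻¹) (deriv (fe 0) z⁻¹ * (-(z ^ 2)⁻¹)) z :=
    HasDerivAt.comp z h1 (hasDerivAt_inv hz0)
  have h3 : fe 0 z⁻¹ = z⁻¹ * quo (fe 0) z⁻¹ := (quo_mul hc.zero _).symm
  have hne : fe 0 z⁻¹ ≠ 0 := by rw [h3]; exact mul_ne_zero (inv_ne_zero hz0) hq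
  have h4 := h2.inv hne
  have hev : gx 0 =ᶠ[𝓝 z] (fun z : ℂ => fe 0 z⁻¹)⁻¹ := by
    have hcont : ContinuousAt (fun z : ℂ => z⁻¹) z := continuousAt_inv₀ hz0
    filter_upwards [hcont.eventually (isOpen_ball.mem_nhds hu)] with w hw
    unfold gx
    rw [(KE_ext 0).eq hw]
    rfl
  refine (h4.congr_of_eventuallyEq hev).congr_deriv ?_
  unfold Gd
  rw [h3]
  field_simp

lemma Gd_hasDerivAt {u : ℂ} (hu : u ∈ ball (0 : ℂ) 1) : HasDerivAt Gd
    (Gd u * (deriv (deriv (fe 0)) u / deriv (fe 0) u - 2 * (deriv (quo (fe 0)) u / quo (fe 0) u)))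
    u := by
  have hc := fe_cls 0
  have hq := quo_fe_ne hu
  have h1 : HasDerivAt (deriv (fe 0)) (deriv (deriv (fe 0)) u) u :=
    (hc.deriv_diff.differentiableAt (isOpen_ball.mem_nhds hu)).hasDerivAt
  have h2 : HasDerivAt (quo (fe 0)) (deriv (quo (fe 0)) u) u :=
    (hc.quo_diff.differentiableAt (isOpen_ball.mem_nhds hu)).hasDerivAt
  have h3 := h1.div (h2.pow 2) (pow_ne_zero 2 hq)
  have hd := hc.ne_zero (eps_le 0) hu
  have e : Gd = (deriv (fe 0) / quo (fe 0) ^ 2) := rfl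
  rw [e]
  refine h3.congr_deriv ?_
  simp only [Pi.div_apply, Pi.pow_apply]
  field_simp
  simp
  ring

lemma Gd_near {u : ℂ} (hu : u ∈ ball (0 : ℂ) 1) : ‖Gd u - 1‖ ≤ 1 / 100 := by
  have hc := fe_cls 0
  have hq := quo_fe_ne hu
  have h1 := (hc.d1 u hu).trans (eps_le 0)
  have h2 := (hc.quo_near hu).trans (eps_le 0)
  have h3 := norm_ge_one_sub h2
  have h4 := norm_le_one_add h2
  have e : Gd u - 1 = ((deriv (fe 0) u - 1) - (quo (fe 0) u - 1) * (quo (fe 0) u + 1)) /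
      quo (fe 0) u ^ 2 := by
    unfold Gd
    field_simp
    ring
  rw [e, norm_div, norm_pow, div_le_iff₀ (by positivity)]
  have h5 : ‖quo (fe 0) u + 1‖ ≤ 2.01 := by
    refine (norm_add_le _ _).trans ?_
    rw [norm_one]; linarith
  have h6 : ‖(quo (fe 0) u - 1) * (quo (fe 0) u + 1)‖ ≤ 1 / 1000 * 2.01 := by
    rw [norm_mul]; gcongr
  have h7 := norm_sub_le (deriv (fe 0) u - 1) ((quo (fe 0) u - 1) * (quo (fe 0) u + 1))
  have h8 : 0.99 ≤ ‖quo (fe 0) u‖ ^ 2 := by nlinarith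
  linarith

theorem exterior_energy :
    dirichletEnergy {z | 1 < ‖z‖} (fun z => Real.log ‖deriv (gx 0) z‖) < ⊤ := by
  have hc := fe_cls 0
  have hopen : IsOpen {z : ℂ | 1 < ‖z‖} := isOpen_lt continuous_const continuous_norm
  refine energy_lt_top hopen.measurableSet (int_ext.const_mul ((1000 * al 0) ^ 2)) ?_
  intro z hz
  have hz1 : 1 < ‖z‖ := hz
  have hz0 : z ≠ 0 := by rw [← norm_pos_iff]; linarith
  have hu : z⁻¹ ∈ ball (0 : ℂ) 1 := by
    rw [mem_ball_zero_iff, norm_inv]; exact inv_lt_one_of_one_lt₀ hz1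
  have hu0 : z⁻¹ ≠ 0 := inv_ne_zero hz0
  have hev : (fun z => Real.log ‖deriv (gx 0) z‖) =ᶠ[𝓝 z] fun z => Real.log ‖Gd z⁻¹‖ := by
    filter_upwards [hopen.mem_nhds hz] with w hw
    rw [(gx_hasDerivAt hw).deriv]
  rw [hev.fderiv_eq]
  have h1 : HasDerivAt (fun z : ℂ => Gd z⁻¹) _ z :=
    HasDerivAt.comp z (Gd_hasDerivAt hu) (hasDerivAt_inv hz0)
  have hs : Gd z⁻¹ ∈ slitPlane := by
    left
    have := (Complex.abs_re_le_norm _).trans (Gd_near hu)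
    rw [Complex.sub_re, Complex.one_re] at this
    linarith [(abs_le.1 this).1]
  have h2 := fderiv_log_norm_le h1 hs
  have hG := slitPlane_ne_zero hs
  have e : Gd z⁻¹ * (deriv (deriv (fe 0)) z⁻¹ / deriv (fe 0) z⁻¹ -
      2 * (deriv (quo (fe 0)) z⁻¹ / quo (fe 0) z⁻¹)) * -(z ^ 2)⁻¹ / Gd z⁻¹ =
      (deriv (deriv (fe 0)) z⁻¹ / deriv (fe 0) z⁻¹ -
      2 * (deriv (quo (fe 0)) z⁻¹ / quo (fe 0) z⁻¹)) * -(z ^ 2)⁻¹ := by
    rw [mul_assoc, mul_div_cancel_left₀ _ hG]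
  rw [e] at h2
  have hw := wt_ge_one hu
  have ha := al_pos 0
  have h3 : ‖deriv (deriv (fe 0)) z⁻¹ / deriv (fe 0) z⁻¹ -
      2 * (deriv (quo (fe 0)) z⁻¹ / quo (fe 0) z⁻¹)‖ ≤ 1000 * al 0 * wt z⁻¹ := by
    refine (norm_sub_le _ _).trans ?_
    have h4 := hc.d2 _ hu
    have h5 := hc.quo_deriv_bound hu hu0
    have h6 := norm_ge_one_sub (hc.quo_near hu)
    have h7 : ‖2 * (deriv (quo (fe 0)) z⁻¹ / quo (fe 0) z⁻¹)‖ ≤ 200 * al 0 := by
      rw [norm_mul, norm_div, Complex.norm_ofNat]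
      have h8 : ‖deriv (quo (fe 0)) z⁻¹‖ / ‖quo (fe 0) z⁻¹‖ ≤ 100 * al 0 := by
        rw [div_le_iff₀ (by linarith [eps_le 0])]
        nlinarith [eps_le 0]
      linarith
    nlinarith
  have h4 : ‖fderiv ℝ (fun z => Real.log ‖Gd z⁻¹‖) z‖ ≤ 1000 * al 0 * (‖z‖⁻¹ ^ 2 * wt z⁻¹) := by
    refine h2.trans ?_
    rw [norm_mul, norm_neg, norm_inv, norm_pow, ← inv_pow]
    calc _ ≤ 1000 * al 0 * wt z⁻¹ * ‖z‖⁻¹ ^ 2 := by gcongr
      _ = _ := by ring
  simp only [hz1, if_true]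
  have hu1 : ‖z⁻¹‖ < 1 := mem_ball_zero_iff.1 hu
  have h5 : ‖z‖⁻¹ ^ 4 * (1 - ‖z‖⁻¹ ^ 2) ^ (-(4 / 5) : ℝ) = (‖z‖⁻¹ ^ 2 * wt z⁻¹) ^ 2 := by
    rw [mul_pow, wt_sq_eq hu1, norm_inv]
    ring
  rw [h5, ← mul_pow]
  exact pow_le_pow_left₀ (norm_nonneg _) h4 2

end Pool.Agent.H56.Fekete
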