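import Pool.Agent.H56.Fekete.Limit

/-!
# Extension to homeomorphisms of the plane
-/

namespace Pool.Agent.H56.Fekete

open Complex Metric Set Filter Topology
open scoped NNReal

variable {ε A : ℝ} {φ : ℂ → ℂ}

theorem Cls.exists_ext (h : Cls ε A φ) : ∃ K : ℂ → ℂ, EqOn K φ (ball 0 1) ∧
    ∀ z w, ‖K z - K w - (z - w)‖ ≤ 2 * ε * ‖z - w‖ := by
  have hε := h.eps_nonneg
  have hc : ((ε.toNNReal : ℝ≥0) : ℝ) = ε := Real.coe_toNNReal _ hε
  have hre : LipschitzOnWith ε.toNNReal (fun z => (φ z - z).re) (ball (0 : ℂ) 1) := by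
    apply LipschitzOnWith.of_dist_le_mul
    intro z hz w hw
    rw [Real.dist_eq, ← Complex.sub_re, dist_eq_norm, hc]
    refine (Complex.abs_re_le_norm _).trans ?_
    have e : φ z - z - (φ w - w) = φ z - φ w - (z - w) := by ring
    rw [e]; exact h.sub_le hz hw
  have him : LipschitzOnWith ε.toNNReal (fun z => (φ z - z).im) (ball (0 : ℂ) 1) := by
    apply LipschitzOnWith.of_dist_le_mul
    intro z hz w hw
    rw [Real.dist_eq, ← Complex.sub_im, dist_eq_norm, hc]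
    refine (Complex.abs_im_le_norm _).trans ?_
    have e : φ z - z - (φ w - w) = φ z - φ w - (z - w) := by ring
    rw [e]; exact h.sub_le hz hw
  obtain ⟨g1, hg1, he1⟩ := hre.extend_real
  obtain ⟨g2, hg2, he2⟩ := him.extend_real
  refine ⟨fun z => z + (⟨g1 z, g2 z⟩ : ℂ), ?_, ?_⟩
  · intro z hz
    have h1 := he1 hz
    have h2 := he2 hz
    simp only at h1 h2
    simp only
    rw [← h1, ← h2, Complex.eta]
    ring
  · intro z w
    have h1 := hg1.dist_le_mul z w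
    have h2 := hg2.dist_le_mul z w
    rw [Real.dist_eq, dist_eq_norm, hc] at h1 h2
    have e : z + (⟨g1 z, g2 z⟩ : ℂ) - (w + (⟨g1 w, g2 w⟩ : ℂ)) - (z - w) =
        (⟨g1 z - g1 w, g2 z - g2 w⟩ : ℂ) := by
      apply Complex.ext
      · simp only [Complex.sub_re, Complex.add_re]; ring
      · simp only [Complex.sub_im, Complex.add_im]; ring
    simp only
    rw [e]
    refine (Complex.norm_le_abs_re_add_abs_im _).trans ?_
    simp only
    linarith

theorem Cls.exists_homeo (h : Cls ε A φ) (hε : ε ≤ 1 / 1000) : ∃ K : ℂ ≃ₜ ℂ,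
    EqOn K φ (ball 0 1) ∧ ∀ z w, ‖K z - K w - (z - w)‖ ≤ 2 * ε * ‖z - w‖ := by
  obtain ⟨K, h1, h2⟩ := h.exists_ext
  have hε0 := h.eps_nonneg
  have hcoe : (((2 * ε).toNNReal : ℝ≥0) : ℝ) = 2 * ε := Real.coe_toNNReal _ (by positivity)
  have ha : ApproximatesLinearOn K ((ContinuousLinearEquiv.refl ℂ ℂ : ℂ ≃L[ℂ] ℂ) : ℂ →L[ℂ] ℂ)
      univ (2 * ε).toNNReal := by
    intro z _ w _
    rw [hcoe]
    exact h2 z w
  have hc : (Subsingleton ℂ ∨ (2 * ε).toNNReal <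
      ‖(((ContinuousLinearEquiv.refl ℂ ℂ).symm : ℂ ≃L[ℂ] ℂ) : ℂ →L[ℂ] ℂ)‖₊⁻¹) := by
    right
    have e : ‖(((ContinuousLinearEquiv.refl ℂ ℂ).symm : ℂ ≃L[ℂ] ℂ) : ℂ →L[ℂ] ℂ)‖₊ = 1 := by
      have : (((ContinuousLinearEquiv.refl ℂ ℂ).symm : ℂ ≃L[ℂ] ℂ) : ℂ →L[ℂ] ℂ) =
        ContinuousLinearMap.id ℂ ℂ := rfl
      rw [this]
      apply NNReal.coe_injective
      rw [coe_nnnorm, ContinuousLinearMap.norm_id]; rfl
    rw [e, inv_one, ← NNReal.coe_lt_coe, hcoe, NNReal.coe_one]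
    linarith
  exact ⟨ha.toHomeomorph K hc, h1, h2⟩

/-- The extension of a map of the class to the plane. -/
structure IsExt (ε : ℝ) (φ : ℂ → ℂ) (K : ℂ ≃ₜ ℂ) : Prop where
  eq : EqOn K φ (ball 0 1)
  lip : ∀ z w, ‖K z - K w - (z - w)‖ ≤ 2 * ε * ‖z - w‖

variable {K : ℂ ≃ₜ ℂ}

lemma IsExt.zero (hK : IsExt ε φ K) (h : Cls ε A φ) : K 0 = 0 := by
  rw [hK.eq (mem_ball_self one_pos), h.zero]

lemma IsExt.near (hK : IsExt ε φ K) (h : Cls ε A φ) (z : ℂ) : ‖K z - z‖ ≤ 2 * ε * ‖z‖ := by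
  have := hK.lip z 0
  rwa [hK.zero h, sub_zero, sub_zero] at this

lemma closedBall_sq {z : ℂ} (hz : z ∈ closedBall (0 : ℂ) 1) : z ^ 2 ∈ closedBall (0 : ℂ) 1 := by
  rw [mem_closedBall_zero_iff] at *
  rw [norm_pow]
  nlinarith [norm_nonneg z]

/-- Equality on the closed disc from equality on the open disc. -/
lemma eqOn_closed {F G : ℂ → ℂ} (h : EqOn F G (ball 0 1)) (hF : ContinuousOn F (closedBall 0 1))
    (hG : ContinuousOn G (closedBall 0 1)) : EqOn F G (closedBall 0 1) :=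
  h.of_subset_closure hF hG ball_subset_closedBall (by
    rw [closure_ball (0 : ℂ) one_ne_zero])

end Pool.Agent.H56.Fekete
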