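import Pool.Agent.H56.Fekete.Steps

/-!
# Limits of nested root transforms
-/

namespace Pool.Agent.H56.Fekete

open Complex Metric Set Filter Topology

/-- the sequence of parameters -/
noncomputable def al (j : ℕ) : ℝ := (1 / 100000) * (3 / 5) ^ j

lemma al_pos (j : ℕ) : 0 < al j := by unfold al; positivity

lemma al_le (j : ℕ) : al j ≤ 1 / 100000 := by
  unfold al
  have : ((3 : ℝ) / 5) ^ j ≤ 1 := pow_le_one₀ (by norm_num) (by norm_num)
  linarith

lemma al_succ (j : ℕ) : al (j + 1) = 3 / 5 * al j := by unfold al; rw [pow_succ]; ring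

/-- A family of admissible steps. -/
structure Fam (S : ℕ → (ℂ → ℂ) → ℂ → ℂ) : Prop where
  cls : ∀ j ε A φ, ε ≤ 1 / 1000 → Cls ε A φ →
    Cls ((1 + 2.2 * al j) * ε + 2.2 * al j) ((1 + 2.2 * al j) * A + 2.2 * al j) (S j φ)
  contr : ∀ j ε A φ φ' C, ε ≤ 1 / 1000 → Cls ε A φ → Cls ε A φ' →
    (∀ z ∈ ball (0 : ℂ) 1, ‖φ z - φ' z‖ ≤ C) →
    ∀ z ∈ ball (0 : ℂ) 1, ‖S j φ z - S j φ' z‖ ≤ 1.01 * C

/-- iterated root transforms -/
noncomputable def T (S : ℕ → (ℂ → ℂ) → ℂ → ℂ) : ℕ → ℕ → ℂ → ℂ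
  | 0, _ => fun z => z
  | k + 1, j => root (S (j + 1) (T S k (j + 1)))

variable {S : ℕ → (ℂ → ℂ) → ℂ → ℂ}

lemma cls_id : Cls 0 0 (fun z : ℂ => z) where
  diff := differentiableOn_id
  zero := rfl
  d1 z _ := by simp
  d2 z _ := by
    have : deriv (fun z : ℂ => z) = fun _ => 1 := by ext1 z; simp
    rw [this]; simp
  real x _ := by simp

lemma Fam.cls_S (F : Fam S) {j : ℕ} {φ : ℂ → ℂ}
    (h : Cls (30 * al (j + 1)) (500 * al (j + 1)) φ) :
    Cls (32.3 * al (j + 1)) (502.3 * al (j + 1)) (S (j + 1) φ) := by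
  have h1 := al_le (j + 1)
  have h2 := al_pos (j + 1)
  refine (F.cls (j + 1) _ _ _ (by linarith) h).mono ?_ ?_ <;> nlinarith

lemma Fam.cls_root (F : Fam S) {j : ℕ} {φ : ℂ → ℂ}
    (h : Cls (30 * al (j + 1)) (500 * al (j + 1)) φ) :
    Cls (30 * al j) (500 * al j) (root (S (j + 1) φ)) := by
  have h1 := al_le (j + 1)
  have h2 := al_pos (j + 1)
  have h3 := al_succ j
  have h4 := al_pos j
  refine ((F.cls_S h).root (by linarith)).mono ?_ ?_ <;> linarith

lemma Fam.cls_T (F : Fam S) (k : ℕ) : ∀ j, Cls (30 * al j) (500 * al j) (T S k j) := by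
  induction k with
  | zero =>
    intro j
    have := al_pos j
    exact cls_id.mono (by linarith) (by linarith)
  | succ k ih => intro j; exact F.cls_root (ih (j + 1))

lemma Fam.root_contr (F : Fam S) {j : ℕ} {φ φ' : ℂ → ℂ}
    (h : Cls (30 * al (j + 1)) (500 * al (j + 1)) φ)
    (h' : Cls (30 * al (j + 1)) (500 * al (j + 1)) φ') {C : ℝ}
    (hC : ∀ z ∈ ball (0 : ℂ) 1, ‖φ z - φ' z‖ ≤ C) {z : ℂ} (hz : z ∈ ball (0 : ℂ) 1) :
    ‖root (S (j + 1) φ) z - root (S (j + 1) φ') z‖ ≤ 0.6 * C := by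
  have h1 := al_le (j + 1)
  have hC0 : 0 ≤ C := (norm_nonneg _).trans (hC z hz)
  have h3 := F.contr (j + 1) _ _ _ _ C (by linarith) h h' hC
  have h4 := root_sub_bound (F.cls_S h) (F.cls_S h') (by linarith) h3 hz
  linarith

lemma Fam.T_diff (F : Fam S) (k : ℕ) : ∀ j, ∀ z ∈ ball (0 : ℂ) 1,
    dist (T S k j z) (T S (k + 1) j z) ≤ 1 * 0.6 ^ k := by
  induction k with
  | zero =>
    intro j z hz
    have h1 := (F.cls_T 1 j).sub_id_le hz
    have h2 := al_le j
    have h3 := al_pos j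
    rw [mem_ball_zero_iff] at hz
    rw [dist_comm, dist_eq_norm]
    change ‖T S 1 j z - z‖ ≤ _
    nlinarith [norm_nonneg z]
  | succ k ih =>
    intro j z hz
    rw [dist_eq_norm]
    have := F.root_contr (F.cls_T k (j + 1)) (F.cls_T (k + 1) (j + 1)) (C := 1 * 0.6 ^ k)
      (fun z hz => by rw [← dist_eq_norm]; exact ih (j + 1) z hz) hz
    refine this.trans (le_of_eq ?_)
    rw [pow_succ]; ring

/-- the limit maps -/
noncomputable def Lim (S : ℕ → (ℂ → ℂ) → ℂ → ℂ) (j : ℕ) (z : ℂ) : ℂ :=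
  limUnder atTop (fun k => T S k j z)

lemma Fam.tendsto (F : Fam S) (j : ℕ) {z : ℂ} (hz : z ∈ ball (0 : ℂ) 1) :
    Tendsto (fun k => T S k j z) atTop (𝓝 (Lim S j z)) := by
  have h := cauchySeq_of_le_geometric 0.6 1 (by norm_num) (fun k => F.T_diff k j z hz)
  exact h.tendsto_limUnder

lemma Fam.T_dist (F : Fam S) (k j : ℕ) {z : ℂ} (hz : z ∈ ball (0 : ℂ) 1) :
    ‖T S k j z - Lim S j z‖ ≤ 2.5 * 0.6 ^ k := by
  have := dist_le_of_le_geometric_of_tendsto 0.6 1 (by norm_num) (fun k => F.T_diff k j z hz)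
    (F.tendsto j hz) k
  rw [dist_eq_norm] at this
  refine this.trans (le_of_eq ?_)
  norm_num
  ring

lemma Fam.unif (F : Fam S) (j : ℕ) :
    TendstoLocallyUniformlyOn (fun k => T S k j) (Lim S j) atTop (ball (0 : ℂ) 1) := by
  apply TendstoUniformlyOn.tendstoLocallyUniformlyOn
  rw [Metric.tendstoUniformlyOn_iff]
  intro ε hε
  have h1 : Tendsto (fun k : ℕ => (2.5 : ℝ) * 0.6 ^ k) atTop (𝓝 (2.5 * 0)) :=
    (tendsto_pow_atTop_nhds_zero_of_lt_one (by norm_num) (by norm_num)).const_mul _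
  rw [mul_zero] at h1
  filter_upwards [h1.eventually (eventually_lt_nhds hε)] with k hk z hz
  rw [dist_comm, dist_eq_norm]
  exact (F.T_dist k j hz).trans_lt hk

theorem Fam.cls_Lim (F : Fam S) (j : ℕ) : Cls (30 * al j) (500 * al j) (Lim S j) := by
  have hT := fun k => F.cls_T k j
  have hu := F.unif j
  have hu1 := hu.deriv (Eventually.of_forall fun k => (hT k).diff) isOpen_ball
  have hu2 := hu1.deriv (Eventually.of_forall fun k => (hT k).deriv_diff) isOpen_ball
  have hd1 : ∀ z ∈ ball (0 : ℂ) 1, ‖deriv (Lim S j) z - 1‖ ≤ 30 * al j := by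
    intro z hz
    have h1 := (hu1.tendsto_at hz).sub_const 1
    exact le_of_tendsto h1.norm (Eventually.of_forall fun k => (hT k).d1 z hz)
  refine
    { diff := hu.differentiableOn (Eventually.of_forall fun k => (hT k).diff) isOpen_ball
      zero := ?_
      d1 := hd1
      d2 := ?_
      real := ?_ }
  · have h1 := F.tendsto j (mem_ball_self one_pos)
    have h2 : (fun k => T S k j 0) = fun _ => 0 := by ext1 k; exact (hT k).zero
    rw [h2] at h1
    exact (tendsto_nhds_unique h1 tendsto_const_nhds)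
  · intro z hz
    have hne : deriv (Lim S j) z ≠ 0 := by
      intro h0
      have := hd1 z hz
      rw [h0, zero_sub, norm_neg, norm_one] at this
      linarith [al_le j]
    have h1 := (hu2.tendsto_at hz).div (hu1.tendsto_at hz) hne
    exact le_of_tendsto h1.norm (Eventually.of_forall fun k => (hT k).d2 z hz)
  · intro x hx
    have hx' : (x : ℂ) ∈ ball (0 : ℂ) 1 := by
      rw [mem_ball_zero_iff, Complex.norm_real]; exact hx
    have h1 := (Complex.continuous_im.tendsto _).comp (F.tendsto j hx')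
    have h2 : (fun k => (T S k j x).im) = fun _ => 0 := by ext1 k; exact (hT k).real x hx
    have h3 : (Complex.im ∘ fun k => T S k j x) = fun _ => 0 := h2
    rw [h3] at h1
    exact (tendsto_nhds_unique h1 tendsto_const_nhds)

theorem Fam.eq (F : Fam S) (j : ℕ) {z : ℂ} (hz : z ∈ ball (0 : ℂ) 1) :
    Lim S j z = root (S (j + 1) (Lim S (j + 1))) z := by
  have h1 := (F.tendsto j hz).comp (tendsto_add_atTop_nat 1)
  have h2 : Tendsto (fun k => T S (k + 1) j z) atTop
      (𝓝 (root (S (j + 1) (Lim S (j + 1))) z)) := by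
    rw [tendsto_iff_norm_sub_tendsto_zero]
    have hlim : Tendsto (fun k : ℕ => 0.6 * ((2.5 : ℝ) * 0.6 ^ k)) atTop (𝓝 (0.6 * (2.5 * 0))) :=
      ((tendsto_pow_atTop_nhds_zero_of_lt_one (by norm_num) (by norm_num)).const_mul _).const_mul _
    rw [mul_zero, mul_zero] at hlim
    refine squeeze_zero (fun _ => norm_nonneg _) (fun k => ?_) hlim
    exact F.root_contr (F.cls_T k (j + 1)) (F.cls_Lim (j + 1))
      (fun z hz => F.T_dist k (j + 1) hz) hz
  exact tendsto_nhds_unique h1 h2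

end Pool.Agent.H56.Fekete
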