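import Pool.Agent.H56.Fekete.Energy
import Pool.Agent.H56.Fekete.Disc

/-!
# A Weil-Petersson quasicircle with unbounded Fekete energies
-/

namespace Pool.Agent.H56.Fekete

open Complex Metric Set Filter Topology MeasureTheory FeketeDefs
open scoped ENNReal

/-! ### The curve data -/

lemma jordan : IsJordanCurve (eta 0) := by
  refine ⟨fun ξ => gx 0 (ξ : ℂ), (gx_continuous 0).comp continuous_subtype_val, ?_, ?_⟩
  · intro a b h
    exact Subtype.ext (gx_injective 0 h)
  · ext w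
    constructor
    · rintro ⟨ξ, rfl⟩
      exact ⟨ξ, mem_sphere_zero_iff_norm.2 (Circle.norm_coe ξ), rfl⟩
    · rintro ⟨z, hz, rfl⟩
      rw [mem_sphere_zero_iff_norm] at hz
      exact ⟨⟨z, by rw [← SetLike.mem_coe, Submonoid.coe_unitSphere]; simpa using hz⟩, rfl⟩

/-- the exterior domain -/
def Dex : Set ℂ := gx 0 '' {z | 1 < ‖z‖}

lemma isConnected_out : IsConnected {z : ℂ | 1 < ‖z‖} := by
  have h1 : IsConnected {w : ℂ | 0 < w.re} := by
    have hconv : Convex ℝ {w : ℂ | 0 < w.re} := convex_halfSpace_re_gt 0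
    exact ⟨⟨1, by simp⟩, hconv.isPreconnected⟩
  have h2 := h1.image Complex.exp Complex.continuous_exp.continuousOn
  have h3 : Complex.exp '' {w : ℂ | 0 < w.re} = {z : ℂ | 1 < ‖z‖} := by
    ext z
    constructor
    · rintro ⟨w, hw, rfl⟩
      have hw' : 0 < w.re := hw
      rw [mem_ofPred_eq, Complex.norm_exp]
      exact Real.one_lt_exp_iff.2 hw'
    · intro hz
      have hz' : 1 < ‖z‖ := hz
      have hz0 : z ≠ 0 := by rw [← norm_pos_iff]; linarith
      refine ⟨Complex.log z, ?_, Complex.exp_log hz0⟩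
      rw [mem_ofPred_eq, Complex.log_re]
      exact Real.log_pos hz'
  rwa [h3] at h2

lemma gx_norm_le (z : ℂ) : ‖gx 0 z‖ ≤ 1.01 * ‖z‖ := by
  have h1 := gx_near 0 z
  have h2 := norm_sub_norm_le (gx 0 z) z
  have h3 := al_le 0
  nlinarith [norm_nonneg z]

lemma intExt : IsInteriorExterior (eta 0) (Din 0) Dex where
  isOpen_int := isOpen_Din 0
  isConnected_int := isConnected_Din 0
  isBounded_int := by
    rw [isBounded_iff_forall_norm_le]
    refine ⟨2, ?_⟩
    rintro _ ⟨z, hz, rfl⟩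
    rw [mem_ball_zero_iff] at hz
    have := gx_norm_le z
    linarith
  isOpen_ext := (gH 0).isOpenMap _ (isOpen_lt continuous_const continuous_norm)
  isConnected_ext := isConnected_out.image _ (gx_continuous 0).continuousOn
  not_isBounded_ext := by
    rw [isBounded_iff_forall_norm_le]
    rintro ⟨C, hC⟩
    have h1 : (gx 0 ((2 * |C| + 2 : ℝ) : ℂ)) ∈ Dex := by
      refine ⟨_, ?_, rfl⟩
      rw [mem_ofPred_eq, Complex.norm_real, Real.norm_of_nonneg (by positivity)]
      linarith [abs_nonneg C]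
    have h2 := hC _ h1
    have h3 := gx_norm_ge 0 ((2 * |C| + 2 : ℝ) : ℂ)
    rw [Complex.norm_real, Real.norm_of_nonneg (by positivity)] at h3
    have := le_abs_self C
    linarith [abs_nonneg C]
  disjoint := by
    rw [Set.disjoint_left]
    rintro _ ⟨z, hz, rfl⟩ ⟨w, hw, h⟩
    have := gx_injective 0 h
    subst this
    rw [mem_ball_zero_iff] at hz
    have hw' : 1 < ‖w‖ := hw
    linarith
  union := by
    ext w
    constructor
    · rintro (⟨z, hz, rfl⟩ | ⟨z, hz, rfl⟩) ⟨v, hv, h⟩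
      · have := gx_injective 0 h
        subst this
        rw [mem_ball_zero_iff] at hz
        rw [mem_sphere_zero_iff_norm] at hv
        linarith
      · have := gx_injective 0 h
        subst this
        have hz' : 1 < ‖v‖ := hz
        rw [mem_sphere_zero_iff_norm] at hv
        linarith
    · intro hw
      have h1 : gx 0 (gxi 0 w) = w := gx_gxi 0 w
      rcases lt_trichotomy ‖gxi 0 w‖ 1 with h | h | h
      · exact Or.inl ⟨_, mem_ball_zero_iff.2 h, h1⟩
      · exact (hw ⟨_, mem_sphere_zero_iff_norm.2 h, h1⟩).elim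
      · exact Or.inr ⟨_, h, h1⟩

lemma intMap : IsInteriorMap (Din 0) (fi 0) where
  differentiableOn := (fi_cls 0).diff
  bijOn := by
    have h1 : BijOn (KI 0) (ball 0 1) (Din 0) := by
      rw [← KI_image]
      exact (KI 0).injective.injOn.bijOn_image
    exact h1.congr (KI_ext 0).eq
  map_zero := (fi_cls 0).zero
  deriv_im := by
    have hc := fi_cls 0
    have h0 : (0 : ℂ) ∈ ball (0 : ℂ) 1 := mem_ball_self one_pos
    have h1 : HasDerivAt (fi 0) (deriv (fi 0) 0) ((0 : ℝ) : ℂ) := by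
      rw [Complex.ofReal_zero]
      exact (hc.diff.differentiableAt (isOpen_ball.mem_nhds h0)).hasDerivAt
    have h2 := h1.comp_ofReal
    have h3 : HasDerivAt (fun x : ℝ => (fi 0 x).im) (deriv (fi 0) 0).im 0 :=
      Complex.imCLM.hasFDerivAt.comp_hasDerivAt (0 : ℝ) h2
    have h4 : (fun x : ℝ => (fi 0 x).im) =ᶠ[𝓝 0] fun _ => 0 := by
      filter_upwards [Metric.ball_mem_nhds (0 : ℝ) one_pos] with x hx
      apply hc.real
      rwa [Metric.mem_ball, dist_zero_right, Real.norm_eq_abs] at hx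
    have h5 := h3.congr_of_eventuallyEq h4.symm
    exact h5.unique (hasDerivAt_const (0 : ℝ) (0 : ℝ))
  deriv_re := by
    have h1 := (fi_cls 0).d1 0 (mem_ball_self one_pos)
    have h2 := (Complex.abs_re_le_norm _).trans (h1.trans (eps_le 0))
    rw [Complex.sub_re, Complex.one_re] at h2
    linarith [(abs_le.1 h2).1]

lemma extMap : IsExteriorMap Dex (gx 0) 1 where
  differentiableOn z hz := (gx_hasDerivAt hz).differentiableAt.differentiableWithinAt
  bijOn := (gx_injective 0).injOn.bijOn_image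
  r_pos := one_pos
  isBigO := by
    apply Asymptotics.IsBigO.of_bound 1
    have hmem : {z : ℂ | 1 < ‖z‖} ∈ Bornology.cobounded ℂ := by
      have := Metric.isBounded_closedBall (x := (0 : ℂ)) (r := 1)
      rw [← Bornology.isCobounded_compl_iff] at this
      refine mem_of_superset this ?_
      intro z hz
      rw [mem_compl_iff, mem_closedBall_zero_iff, not_le] at hz
      exact hz
    filter_upwards [hmem] with z hz
    have hz1 : 1 < ‖z‖ := hz
    have hz0 : z ≠ 0 := by rw [← norm_pos_iff]; linarith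
    have hu : z⁻¹ ∈ ball (0 : ℂ) 1 := by
      rw [mem_ball_zero_iff, norm_inv]; exact inv_lt_one_of_one_lt₀ hz1
    have hc := fe_cls 0
    have hq := quo_fe_ne hu
    -- Schwarz lemma for `quo - 1`
    have hm : MapsTo (quo (fe 0)) (ball 0 1) (closedBall (quo (fe 0) 0) (30 * al 0)) := by
      intro v hv
      have h0 : quo (fe 0) 0 = 1 := by
        unfold quo; rw [dslope_same, fe_deriv_zero]
      rw [h0, mem_closedBall, dist_eq_norm]
      exact hc.quo_near hv
    have h1 := Complex.dist_le_div_mul_dist_of_mapsTo_ball hc.quo_diff hm hu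
    have h0 : quo (fe 0) 0 = 1 := by
      unfold quo; rw [dslope_same, fe_deriv_zero]
    rw [h0, dist_eq_norm, dist_zero_right, div_one] at h1
    have h3 : fe 0 z⁻¹ = z⁻¹ * quo (fe 0) z⁻¹ := (quo_mul hc.zero _).symm
    have e : gx 0 z - ((1 : ℝ) : ℂ) * z = -(z * (quo (fe 0) z⁻¹ - 1)) / quo (fe 0) z⁻¹ := by
      unfold gx
      rw [(KE_ext 0).eq hu, h3, Complex.ofReal_one]
      generalize quo (fe 0) z⁻¹ = k at hq ⊢
      field_simp
      ring
    rw [e, norm_div, norm_neg, norm_mul, norm_one, mul_one]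
    have h4 := norm_ge_one_sub ((hc.quo_near hu).trans (eps_le 0))
    rw [div_le_one (by linarith)]
    have h5 : ‖z‖ * ‖z⁻¹‖ = 1 := by rw [← norm_mul, mul_inv_cancel₀ hz0, norm_one]
    calc ‖z‖ * ‖quo (fe 0) z⁻¹ - 1‖ ≤ ‖z‖ * (30 * al 0 * ‖z⁻¹‖) := by gcongr
      _ = 30 * al 0 * (‖z‖ * ‖z⁻¹‖) := by ring
      _ = 30 * al 0 := by rw [h5, mul_one]
      _ ≤ _ := by linarith [eps_le 0]

lemma energy_finite : loewnerEnergy (fi 0) (gx 0) 1 < ⊤ := by
  unfold loewnerEnergy
  have h1 := interior_energy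
  have h2 := exterior_energy
  apply EReal.add_lt_top
  · apply ne_of_lt
    apply EReal.add_lt_top
    · rw [Ne, EReal.coe_ennreal_eq_top_iff]; exact h1.ne
    · rw [Ne, EReal.coe_ennreal_eq_top_iff]; exact h2.ne
  · exact EReal.coe_ne_top _

theorem weilPetersson : IsWeilPetersson (eta 0) 1 :=
  ⟨jordan, Din 0, Dex, fi 0, gx 0, intExt, ⟨0, mem_ball_self one_pos, gx_zero 0⟩, intMap, extMap,
    energy_finite⟩

/-! ### The discriminants -/

lemma dd_fin {n : ℕ} (w : Fin n → ℂ) :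
    dd w = ∏ j, ∏ k ∈ Finset.Ioi j, ‖w j - w k‖ ^ 2 := by
  have h1 : ∀ j : Fin n, (∏ k, if j = k then (1 : ℝ) else ‖w j - w k‖) =
      (∏ k ∈ Finset.Iio j, ‖w j - w k‖) * ∏ k ∈ Finset.Ioi j, ‖w j - w k‖ := by
    intro j
    have hu : (Finset.univ : Finset (Fin n)) = insert j (Finset.Iio j ∪ Finset.Ioi j) := by
      ext k
      simp only [Finset.mem_univ, Finset.mem_insert, Finset.mem_union, Finset.mem_Iio,
        Finset.mem_Ioi, true_iff]
      rcases lt_trichotomy k j with h | h | h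
      · exact Or.inr (Or.inl h)
      · exact Or.inl h
      · exact Or.inr (Or.inr h)
    rw [hu, Finset.prod_insert (by simp), if_pos rfl, one_mul, Finset.prod_union]
    · congr 1
      · apply Finset.prod_congr rfl
        intro k hk
        rw [if_neg (Finset.mem_Iio.1 hk).ne']
      · apply Finset.prod_congr rfl
        intro k hk
        rw [if_neg (Finset.mem_Ioi.1 hk).ne]
    · rw [Finset.disjoint_left]
      intro k h1 h2
      exact absurd (Finset.mem_Iio.1 h1) (not_lt.2 (Finset.mem_Ioi.1 h2).le)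
  unfold dd
  simp only [h1]
  rw [Finset.prod_mul_distrib]
  have h2 : ∏ j : Fin n, ∏ k ∈ Finset.Iio j, ‖w j - w k‖ =
      ∏ j : Fin n, ∏ k ∈ Finset.Ioi j, ‖w j - w k‖ := by
    rw [Finset.prod_comm' (s' := fun k => Finset.Ioi k) (t' := Finset.univ)]
    · apply Finset.prod_congr rfl
      intro k _
      apply Finset.prod_congr rfl
      intro j _
      exact norm_sub_rev _ _
    · intro x y
      simp
  rw [h2, ← Finset.prod_mul_distrib]
  apply Finset.prod_congr rfl
  intro j _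
  rw [← Finset.prod_mul_distrib]
  apply Finset.prod_congr rfl
  intro k _
  ring

lemma dd_equiv {ι κ : Type} [Fintype ι] [DecidableEq ι] [Fintype κ] [DecidableEq κ] (e : κ ≃ ι)
    (w : ι → ℂ) : dd (w ∘ e) = dd w := by
  unfold dd
  rw [← Equiv.prod_comp e]
  apply Finset.prod_congr rfl
  intro x _
  rw [← Equiv.prod_comp e]
  apply Finset.prod_congr rfl
  intro y _
  simp only [Function.comp_apply, e.apply_eq_iff_eq]

lemma eta_norm_le {w : ℂ} (hw : w ∈ eta 0) : ‖w‖ ≤ 2 := by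
  obtain ⟨z, hz, rfl⟩ := hw
  rw [mem_sphere_zero_iff_norm] at hz
  have := gx_norm_le z
  linarith

lemma bdd (n : ℕ) : BddAbove {x : ℝ | ∃ w : Fin n → ℂ, (∀ j, w j ∈ eta 0) ∧
    x = ∏ j, ∏ k ∈ Finset.Ioi j, ‖w j - w k‖ ^ 2} := by
  refine ⟨∏ j : Fin n, ∏ k ∈ Finset.Ioi j, (16 : ℝ), ?_⟩
  rintro x ⟨w, hw, rfl⟩
  apply Finset.prod_le_prod
  · intro j _
    exact Finset.prod_nonneg fun k _ => by positivity
  · intro j _
    apply Finset.prod_le_prod
    · intro k _; positivity
    · intro k _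
      have h1 := norm_sub_le (w j) (w k)
      have h2 := eta_norm_le (hw j)
      have h3 := eta_norm_le (hw k)
      have := norm_nonneg (w j - w k)
      nlinarith

lemma lower (m : ℕ) (hm : 1 ≤ m) : (1 / 100000) * (6 / 5 : ℝ) ^ m ≤ feketeEnergy (eta 0) (2 ^ m) := by
  obtain ⟨ι, _, _, S, hcard, hmem, _, hdd⟩ := config m 0
  rw [zero_add] at hdd
  set e : Fin (2 ^ m) ≃ ι := (Fintype.equivFinOfCardEq hcard).symm
  have h1 : dd S ≤ maxDiscriminant (eta 0) (2 ^ m) := by
    apply le_csSup (bdd _)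
    exact ⟨S ∘ e, fun j => hmem _, by rw [← dd_fin, dd_equiv]⟩
  have hpos : (0 : ℝ) < ((2 : ℝ) ^ m) ^ 2 ^ m := by positivity
  have h2 : (1 + aa m) ^ (2 ^ m / 2) ≤
      maxDiscriminant (eta 0) (2 ^ m) / (((2 ^ m : ℕ) : ℝ)) ^ (2 ^ m) := by
    push_cast
    rw [le_div_iff₀ hpos, mul_comm]
    exact hdd.trans h1
  have ha := aa_pos m
  have ha1 := aa_le m
  have h3 : ((2 ^ m / 2 : ℕ) : ℝ) * Real.log (1 + aa m) ≤
      Real.log (maxDiscriminant (eta 0) (2 ^ m) / (((2 ^ m : ℕ) : ℝ)) ^ (2 ^ m)) := by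
    rw [← Real.log_pow]
    exact Real.log_le_log (by positivity) h2
  have h4 : aa m / 2 ≤ Real.log (1 + aa m) := by
    have h5 := Real.one_sub_inv_le_log_of_pos (show 0 < 1 + aa m by linarith)
    have h6 : aa m / 2 ≤ 1 - (1 + aa m)⁻¹ := by
      have e : 1 - (1 + aa m)⁻¹ = aa m / (1 + aa m) := by field_simp; ring
      rw [e, div_le_div_iff₀ (by norm_num) (by linarith)]
      nlinarith
    linarith
  have h5 : ((2 ^ m / 2 : ℕ) : ℝ) = 2 ^ m / 2 := by
    obtain ⟨k, rfl⟩ : ∃ k, m = k + 1 := ⟨m - 1, by omega⟩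
    rw [pow_succ, Nat.mul_div_cancel _ (by norm_num)]
    push_cast
    ring
  rw [h5] at h3
  have h6 := (aa_bounds m).1
  have h7 : al m * 2 ^ m = (1 / 100000) * (6 / 5 : ℝ) ^ m := by
    unfold al
    rw [mul_assoc, ← mul_pow]
    norm_num
  unfold feketeEnergy
  have h8 : (2 : ℝ) ^ m / 2 * (aa m / 2) ≤ 2 ^ m / 2 * Real.log (1 + aa m) := by gcongr
  have h9 : (0 : ℝ) < 2 ^ m := by positivity
  nlinarith

lemma tendsto_sub : Tendsto (fun m : ℕ => feketeEnergy (eta 0) (2 ^ m)) atTop atTop := by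
  have h1 : Tendsto (fun m : ℕ => (1 / 100000) * (6 / 5 : ℝ) ^ m) atTop atTop :=
    (tendsto_pow_atTop_atTop_of_one_lt (by norm_num)).const_mul_atTop (by norm_num)
  refine tendsto_atTop_mono' _ ?_ h1
  filter_upwards [eventually_ge_atTop 1] with m hm
  exact lower m hm

theorem main : ∃ η : Set ℂ, IsWeilPetersson η 1 ∧
    Tendsto (fun m : ℕ => feketeEnergy η (2 ^ m)) atTop atTop ∧
    ∀ L : ℝ, ¬ Tendsto (feketeEnergy η) atTop (𝓝 L) := by
  refine ⟨eta 0, weilPetersson, tendsto_sub, ?_⟩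
  intro L hL
  have h1 : Tendsto (fun m : ℕ => feketeEnergy (eta 0) (2 ^ m)) atTop (𝓝 L) :=
    hL.comp (tendsto_pow_atTop_atTop_of_one_lt (by norm_num))
  exact not_tendsto_nhds_of_tendsto_atTop tendsto_sub L h1

end Pool.Agent.H56.Fekete
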