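import Pool.Agent.H56.Fekete.Ext

/-!
# The interior and exterior maps
-/

namespace Pool.Agent.H56.Fekete

open Complex Metric Set Filter Topology

/-! ### Interior -/

/-- the interior family -/
noncomputable def SI (j : ℕ) : (ℂ → ℂ) → ℂ → ℂ := Sint (al j)

lemma famI : Fam SI where
  cls j ε A φ hε h := by
    have h1 := al_le j
    have h2 := al_pos j
    have h3 := h.eps_nonneg
    have hA0 : 0 ≤ A := by
      have h5 := (norm_nonneg _).trans (h.d2 0 (mem_ball_self one_pos))
      have h6 := wt_ge_one (mem_ball_self (x := (0 : ℂ)) one_pos)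
      by_contra hcon
      push Not at hcon
      nlinarith
    refine (h.sint h2.le (by linarith)).mono ?_ ?_ <;> nlinarith
  contr j ε A φ φ' C _ h h' hC z hz := by
    have h1 := al_le j
    exact sint_sub_bound h h' (al_pos j).le (by linarith) hC hz

/-- the interior maps -/
noncomputable def fi (j : ℕ) : ℂ → ℂ := Lim SI j

lemma fi_cls (j : ℕ) : Cls (30 * al j) (500 * al j) (fi j) := famI.cls_Lim j

/-- the parameters of the quadratic maps -/
noncomputable def aa (j : ℕ) : ℝ := -(fi j (-(al j : ℂ))).re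

lemma al_mem (j : ℕ) : -(al j : ℂ) ∈ ball (0 : ℂ) 1 :=
  neg_mem_ball (al_pos j).le (by linarith [al_le j])

lemma aa_eq (j : ℕ) : (aa j : ℂ) = -fi j (-(al j : ℂ)) := by
  have h1 := (fi_cls j).real (-al j) (by
    rw [abs_neg, abs_of_pos (al_pos j)]; linarith [al_le j])
  push_cast at h1
  unfold aa
  apply Complex.ext
  · simp
  · rw [Complex.ofReal_im, Complex.neg_im, h1, neg_zero]

lemma aa_bounds (j : ℕ) : 0.999 * al j ≤ aa j ∧ aa j ≤ 1.001 * al j := by
  have h1 := (fi_cls j).sub_id_le (al_mem j)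
  have h2 := al_pos j
  have h3 := al_le j
  rw [norm_neg, Complex.norm_real, Real.norm_of_nonneg h2.le] at h1
  have h4 := (Complex.abs_re_le_norm _).trans h1
  rw [Complex.sub_re, Complex.neg_re, Complex.ofReal_re] at h4
  have h5 := abs_le.1 h4
  unfold aa
  constructor <;> nlinarith [h5.1, h5.2]

lemma aa_pos (j : ℕ) : 0 < aa j := by
  have := (aa_bounds j).1
  have := al_pos j
  linarith

lemma aa_le (j : ℕ) : aa j ≤ 1 / 10000 := by
  have := (aa_bounds j).2
  have := al_le j
  linarith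

lemma fi_eq (j : ℕ) {z : ℂ} (hz : z ∈ ball (0 : ℂ) 1) :
    fi j z ^ 2 = fi (j + 1) (mob (al (j + 1)) (z ^ 2)) + aa (j + 1) := by
  have h1 := famI.eq j hz
  have h2 := famI.cls_S (j := j) (famI.cls_Lim (j + 1))
  unfold fi
  rw [h1, root_sq h2.zero, aa_eq]
  simp only [SI, Sint, fi]
  ring

/-! ### Exterior -/

/-- the exterior family -/
noncomputable def SE (j : ℕ) : (ℂ → ℂ) → ℂ → ℂ := Sext (aa j)

lemma famE : Fam SE where
  cls j ε A φ hε h := by
    have h1 := aa_bounds j
    have h2 := al_pos j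
    have h4 := al_le j
    have h3 := h.eps_nonneg
    have hA0 : 0 ≤ A := by
      have h5 := (norm_nonneg _).trans (h.d2 0 (mem_ball_self one_pos))
      have h6 := wt_ge_one (mem_ball_self (x := (0 : ℂ)) one_pos)
      by_contra hcon
      push Not at hcon
      nlinarith
    refine (h.sext hε (aa_pos j).le (by linarith [h1.2])).mono ?_ ?_
    · nlinarith [h1.2]
    · nlinarith [h1.2]
  contr j ε A φ φ' C hε h h' hC z hz := by
    have h1 := aa_le j
    exact sext_sub_bound h h' hε (aa_pos j).le (by linarith) hC hz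

/-- the exterior maps in the coordinate `1/z` -/
noncomputable def fe (j : ℕ) : ℂ → ℂ := Lim SE j

lemma fe_cls (j : ℕ) : Cls (30 * al j) (500 * al j) (fe j) := famE.cls_Lim j

lemma eps_le (j : ℕ) : 30 * al j ≤ 1 / 1000 := by linarith [al_le j]

lemma fe_den (j : ℕ) {z : ℂ} (hz : z ∈ ball (0 : ℂ) 1) : 1 + (aa (j + 1) : ℂ) * fe (j + 1) z ≠ 0 := by
  rw [← norm_pos_iff]
  have h1 := dene_bound (aa_pos (j + 1)).le ((fe_cls (j + 1)).small (eps_le _) hz)
  have := aa_le (j + 1)
  linarith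

lemma fe_eq (j : ℕ) {z : ℂ} (hz : z ∈ ball (0 : ℂ) 1) :
    fe j z ^ 2 * (1 + aa (j + 1) * fe (j + 1) (z ^ 2)) = fe (j + 1) (z ^ 2) := by
  have h1 := famE.eq j hz
  have h2 := famE.cls_S (j := j) (famE.cls_Lim (j + 1))
  have h3 := fe_den j (sq_mem_ball hz)
  have e : fe j z ^ 2 = fe (j + 1) (z ^ 2) / (1 + aa (j + 1) * fe (j + 1) (z ^ 2)) := by
    unfold fe
    rw [h1, root_sq h2.zero]
    rfl
  rw [e, div_mul_cancel₀ _ h3]

lemma fe_neg (j : ℕ) {z : ℂ} (hz : z ∈ ball (0 : ℂ) 1) : fe j (-z) = -fe j z := by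
  have hz' : -z ∈ ball (0 : ℂ) 1 := by
    rw [mem_ball_zero_iff, norm_neg, ← mem_ball_zero_iff]; exact hz
  unfold fe
  rw [famE.eq j hz, famE.eq j hz', root_neg]

/-! ### Derivative at the origin -/

lemma sqr_one : sqr 1 = 1 := by
  unfold sqr; exact Complex.one_cpow _

lemma T_deriv_zero (k : ℕ) : ∀ j, deriv (T SE k j) 0 = 1 := by
  induction k with
  | zero => intro j; simp [T]
  | succ k ih =>
    intro j
    have h0 : (0 : ℂ) ∈ ball (0 : ℂ) 1 := mem_ball_self one_pos
    have hc := famE.cls_T k (j + 1)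
    have h2 := famE.cls_S (j := j) hc
    have hε : 32.3 * al (j + 1) ≤ 1 / 1000 := by linarith [al_le (j + 1)]
    have h3 := (h2.root_hasDerivAt hε h0).deriv
    have h4 : deriv (SE (j + 1) (T SE k (j + 1))) 0 = 1 := by
      have h5 : HasDerivAt (T SE k (j + 1)) 1 0 := by
        have := (hc.diff.differentiableAt (isOpen_ball.mem_nhds h0)).hasDerivAt
        rwa [ih (j + 1)] at this
      have h6 : HasDerivAt (fun z => 1 + (aa (j + 1) : ℂ) * T SE k (j + 1) z)
          (aa (j + 1) * 1) 0 := (h5.const_mul _).const_add 1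
      have h7 := h5.div h6 (by rw [hc.zero]; simp)
      have e : SE (j + 1) (T SE k (j + 1)) =
          (T SE k (j + 1) / fun z => 1 + (aa (j + 1) : ℂ) * T SE k (j + 1) z) := rfl
      rw [e, h7.deriv, hc.zero]
      simp
    have h8 : quo (SE (j + 1) (T SE k (j + 1))) 0 = 1 := by
      unfold quo; rw [dslope_same, h4]
    change deriv (root (SE (j + 1) (T SE k (j + 1)))) 0 = 1
    rw [h3, zero_pow two_ne_zero, h4, h8, sqr_one, div_one]

lemma fe_deriv_zero (j : ℕ) : deriv (fe j) 0 = 1 := by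
  have h0 : (0 : ℂ) ∈ ball (0 : ℂ) 1 := mem_ball_self one_pos
  have hu := (famE.unif j).deriv (Eventually.of_forall fun k => (famE.cls_T k j).diff) isOpen_ball
  have h1 := hu.tendsto_at h0
  have h2 : (fun n => (deriv ∘ fun k => T SE k j) n 0) = fun _ => (1 : ℂ) := by
    ext1 n; exact T_deriv_zero n j
  rw [h2] at h1
  exact (tendsto_nhds_unique h1 tendsto_const_nhds)

/-! ### Extensions to the plane -/

/-- extension of the interior map -/
noncomputable def KI (j : ℕ) : ℂ ≃ₜ ℂ := ((fi_cls j).exists_homeo (eps_le j)).choose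

lemma KI_ext (j : ℕ) : IsExt (30 * al j) (fi j) (KI j) :=
  ⟨((fi_cls j).exists_homeo (eps_le j)).choose_spec.1,
    ((fi_cls j).exists_homeo (eps_le j)).choose_spec.2⟩

/-- extension of the exterior map -/
noncomputable def KE (j : ℕ) : ℂ ≃ₜ ℂ := ((fe_cls j).exists_homeo (eps_le j)).choose

lemma KE_ext (j : ℕ) : IsExt (30 * al j) (fe j) (KE j) :=
  ⟨((fe_cls j).exists_homeo (eps_le j)).choose_spec.1,
    ((fe_cls j).exists_homeo (eps_le j)).choose_spec.2⟩

lemma KI_near (j : ℕ) (z : ℂ) : ‖KI j z - z‖ ≤ 60 * al j * ‖z‖ := by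
  have := (KI_ext j).near (fi_cls j) z
  linarith

lemma KE_near (j : ℕ) (z : ℂ) : ‖KE j z - z‖ ≤ 60 * al j * ‖z‖ := by
  have := (KE_ext j).near (fe_cls j) z
  linarith

lemma KE_zero (j : ℕ) : KE j 0 = 0 := (KE_ext j).zero (fe_cls j)

lemma mob_continuousOn (j : ℕ) : ContinuousOn (mob (al j)) (closedBall 0 1) := by
  unfold mob
  apply ContinuousOn.div (by fun_prop) (by fun_prop)
  intro z hz
  exact den_ne_zero (al_pos j).le (by linarith [al_le j]) hz

lemma KI_eq (j : ℕ) {z : ℂ} (hz : z ∈ closedBall (0 : ℂ) 1) :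
    KI j z ^ 2 = KI (j + 1) (mob (al (j + 1)) (z ^ 2)) + aa (j + 1) := by
  have h := eqOn_closed (F := fun z => KI j z ^ 2)
    (G := fun z => KI (j + 1) (mob (al (j + 1)) (z ^ 2)) + aa (j + 1)) (by
      intro z hz
      simp only
      rw [(KI_ext j).eq hz, (KI_ext (j + 1)).eq (mob_mem (al_pos _).le (by linarith [al_le (j + 1)])
        (sq_mem_ball hz)), fi_eq j hz])
    (((KI j).continuous.pow 2).continuousOn)
    (((KI (j + 1)).continuous.comp_continuousOn ((mob_continuousOn (j + 1)).comp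
      (by fun_prop) (fun z hz => closedBall_sq hz))).add continuousOn_const)
  exact h hz

lemma KE_eq (j : ℕ) {z : ℂ} (hz : z ∈ closedBall (0 : ℂ) 1) :
    KE j z ^ 2 * (1 + aa (j + 1) * KE (j + 1) (z ^ 2)) = KE (j + 1) (z ^ 2) := by
  have hc := (KE (j + 1)).continuous
  have hc' := (KE j).continuous
  have h := eqOn_closed (F := fun z => KE j z ^ 2 * (1 + aa (j + 1) * KE (j + 1) (z ^ 2)))
    (G := fun z => KE (j + 1) (z ^ 2)) (by
      intro z hz
      simp only
      rw [(KE_ext j).eq hz, (KE_ext (j + 1)).eq (sq_mem_ball hz), fe_eq j hz])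
    (by fun_prop) (by fun_prop)
  exact h hz

lemma KE_neg (j : ℕ) {z : ℂ} (hz : z ∈ closedBall (0 : ℂ) 1) : KE j (-z) = -KE j z := by
  have hc' := (KE j).continuous
  have h := eqOn_closed (F := fun z => KE j (-z)) (G := fun z => -KE j z) (by
      intro z hz
      have hz' : -z ∈ ball (0 : ℂ) 1 := by
        rw [mem_ball_zero_iff, norm_neg, ← mem_ball_zero_iff]; exact hz
      simp only
      rw [(KE_ext j).eq hz, (KE_ext j).eq hz', fe_neg j hz])
    (by fun_prop) (by fun_prop)
  exact h hz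

end Pool.Agent.H56.Fekete
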