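import Mathlib

/-!
# The root transform `ψ(z)^2 = H(z^2)`
-/

namespace Pool.Agent.H56.Fekete

open Complex Metric Set Filter Topology

/-- principal square root -/
noncomputable def sqr (w : ℂ) : ℂ := w ^ ((2 : ℂ)⁻¹)

lemma sqr_sq (w : ℂ) : sqr w ^ 2 = w := by
  have := Complex.cpow_nat_inv_pow w (n := 2) two_ne_zero
  exact this

lemma sqr_re_nonneg (w : ℂ) : 0 ≤ (sqr w).re := by
  by_cases hw : w = 0
  · subst hw; simp [sqr]
  · rw [sqr, Complex.cpow_def_of_ne_zero hw, Complex.exp_re]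
    apply mul_nonneg (Real.exp_pos _).le
    have e : (Complex.log w * (2 : ℂ)⁻¹).im = w.arg / 2 := by
      rw [show (2 : ℂ)⁻¹ = ((2⁻¹ : ℝ) : ℂ) by push_cast; rfl, Complex.im_mul_ofReal,
        Complex.log_im]
      ring
    rw [e]
    apply Real.cos_nonneg_of_mem_Icc
    have h1 := Complex.neg_pi_lt_arg w
    have h2 := Complex.arg_le_pi w
    constructor <;> linarith

lemma norm_ge_one_sub {w : ℂ} {ε : ℝ} (h : ‖w - 1‖ ≤ ε) : 1 - ε ≤ ‖w‖ := by
  have := norm_sub_norm_le (1 : ℂ) w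
  rw [norm_one, norm_sub_rev] at this
  linarith

lemma norm_le_one_add {w : ℂ} {ε : ℝ} (h : ‖w - 1‖ ≤ ε) : ‖w‖ ≤ 1 + ε := by
  have := norm_sub_norm_le w (1 : ℂ)
  rw [norm_one] at this
  linarith

lemma sqr_near {w : ℂ} (h : ‖w - 1‖ ≤ 1 / 1000) : ‖sqr w - 1‖ ≤ 0.501 * ‖w - 1‖ := by
  have e : (sqr w - 1) * (sqr w + 1) = w - 1 := by
    have := sqr_sq w
    linear_combination this
  have hr := sqr_re_nonneg w
  have h1 : 1 ≤ ‖sqr w + 1‖ := by
    have := Complex.abs_re_le_norm (sqr w + 1)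
    rw [Complex.add_re, Complex.one_re, abs_of_nonneg (by linarith)] at this
    linarith
  have hn : ‖sqr w - 1‖ * ‖sqr w + 1‖ = ‖w - 1‖ := by rw [← norm_mul, e]
  have h2 : ‖sqr w - 1‖ ≤ 1 / 1000 := by nlinarith [norm_nonneg (sqr w - 1)]
  have h3 : 1.999 ≤ ‖sqr w + 1‖ := by
    have h4 : ‖(2 : ℂ)‖ ≤ ‖sqr w + 1‖ + ‖sqr w - 1‖ := by
      have e2 : (2 : ℂ) = (sqr w + 1) - (sqr w - 1) := by ring
      rw [e2]; exact norm_sub_le _ _
    rw [Complex.norm_ofNat] at h4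
    linarith
  nlinarith [norm_nonneg (sqr w - 1)]

lemma sqr_diff {w w' : ℂ} (h : ‖w - 1‖ ≤ 1 / 1000) (h' : ‖w' - 1‖ ≤ 1 / 1000) :
    ‖sqr w - sqr w'‖ ≤ 0.502 * ‖w - w'‖ := by
  have e : (sqr w - sqr w') * (sqr w + sqr w') = w - w' := by
    have h1 := sqr_sq w
    have h2 := sqr_sq w'
    linear_combination h1 - h2
  have h1 := sqr_near h
  have h2 := sqr_near h'
  have h3 : 1.998 ≤ ‖sqr w + sqr w'‖ := by
    have h4 : ‖(2 : ℂ)‖ ≤ ‖sqr w + sqr w'‖ + ‖sqr w - 1‖ + ‖sqr w' - 1‖ := by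
      have e2 : (2 : ℂ) = (sqr w + sqr w') - (sqr w - 1) - (sqr w' - 1) := by ring
      calc ‖(2 : ℂ)‖ = ‖(sqr w + sqr w') - (sqr w - 1) - (sqr w' - 1)‖ := by rw [← e2]
        _ ≤ ‖(sqr w + sqr w') - (sqr w - 1)‖ + ‖sqr w' - 1‖ := norm_sub_le _ _
        _ ≤ _ := by gcongr; exact norm_sub_le _ _
    rw [Complex.norm_ofNat] at h4
    linarith
  have hn : ‖sqr w - sqr w'‖ * ‖sqr w + sqr w'‖ = ‖w - w'‖ := by rw [← norm_mul, e]
  nlinarith [norm_nonneg (sqr w - sqr w')]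

lemma slit_of_near {w : ℂ} (h : ‖w - 1‖ ≤ 1 / 1000) : w ∈ slitPlane := by
  left
  have := Complex.abs_re_le_norm (w - 1)
  rw [Complex.sub_re, Complex.one_re] at this
  have := (abs_le.1 (this.trans h)).1
  linarith

lemma sqr_ne_zero {w : ℂ} (h : w ≠ 0) : sqr w ≠ 0 := by
  intro h0
  have := sqr_sq w
  rw [h0] at this
  apply h
  rw [← this]; simp

lemma sqr_ofReal {x : ℝ} (hx : 0 ≤ x) : (sqr (x : ℂ)).im = 0 := by
  unfold sqr
  have : ((x : ℂ)) ^ ((2 : ℂ)⁻¹) = ((x ^ (2⁻¹ : ℝ) : ℝ) : ℂ) := by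
    rw [Complex.ofReal_cpow hx]
    push_cast
    rfl
  rw [this, Complex.ofReal_im]

lemma sqr_hasDerivAt {f : ℂ → ℂ} {f' z : ℂ} (hf : HasDerivAt f f' z) (h : f z ∈ slitPlane) :
    HasDerivAt (fun z => sqr (f z)) (sqr (f z) * (f' / (2 * f z))) z := by
  have h0 : f z ≠ 0 := slitPlane_ne_zero h
  have h1 := hf.cpow_const (c := (2 : ℂ)⁻¹) h
  refine h1.congr_deriv ?_
  rw [Complex.cpow_sub _ _ h0, Complex.cpow_one]
  unfold sqr
  field_simp

/-- exponent -/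
noncomputable def wt (z : ℂ) : ℝ := (1 - ‖z‖ ^ 2) ^ (-(2 / 5) : ℝ)

lemma wt_ge_one {z : ℂ} (hz : z ∈ ball (0 : ℂ) 1) : 1 ≤ wt z := by
  rw [mem_ball_zero_iff] at hz
  unfold wt
  apply Real.one_le_rpow_of_pos_of_le_one_of_nonpos
  · nlinarith [norm_nonneg z]
  · nlinarith [norm_nonneg z]
  · norm_num

/-- The class of maps close to the identity. -/
structure Cls (ε A : ℝ) (φ : ℂ → ℂ) : Prop where
  diff : DifferentiableOn ℂ φ (ball 0 1)
  zero : φ 0 = 0
  d1 : ∀ z ∈ ball (0 : ℂ) 1, ‖deriv φ z - 1‖ ≤ ε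
  d2 : ∀ z ∈ ball (0 : ℂ) 1, ‖deriv (deriv φ) z / deriv φ z‖ ≤ A * wt z
  real : ∀ x : ℝ, |x| < 1 → (φ x).im = 0

variable {ε A : ℝ} {φ H : ℂ → ℂ}

lemma Cls.sub_le (h : Cls ε A φ) {z w : ℂ} (hz : z ∈ ball (0 : ℂ) 1) (hw : w ∈ ball (0 : ℂ) 1) :
    ‖(φ z - φ w) - (z - w)‖ ≤ ε * ‖z - w‖ := by
  have key := (convex_ball (0 : ℂ) 1).norm_image_sub_le_of_norm_deriv_le (𝕜 := ℂ)
    (f := fun z => φ z - z) (C := ε) (x := w) (y := z)
    (fun x hx => ((h.diff.differentiableAt (isOpen_ball.mem_nhds hx)).sub differentiableAt_id))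
    (fun x hx => by
      have : deriv (fun z => φ z - z) x = deriv φ x - 1 :=
        ((h.diff.differentiableAt (isOpen_ball.mem_nhds hx)).hasDerivAt.sub
          (hasDerivAt_id x)).deriv
      rw [this]; exact h.d1 x hx) hw hz
  have e : (φ z - φ w) - (z - w) = (φ z - z) - (φ w - w) := by ring
  rw [e]; exact key

lemma Cls.sub_id_le (h : Cls ε A φ) {z : ℂ} (hz : z ∈ ball (0 : ℂ) 1) : ‖φ z - z‖ ≤ ε * ‖z‖ := by
  have := h.sub_le hz (mem_ball_self one_pos)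
  rwa [h.zero, sub_zero, sub_zero] at this

lemma Cls.eps_nonneg (h : Cls ε A φ) : 0 ≤ ε :=
  (norm_nonneg _).trans (h.d1 0 (mem_ball_self one_pos))

lemma Cls.mono (h : Cls ε A φ) {ε' A' : ℝ} (h1 : ε ≤ ε') (h2 : A ≤ A') : Cls ε' A' φ where
  diff := h.diff
  zero := h.zero
  d1 z hz := (h.d1 z hz).trans h1
  d2 z hz := (h.d2 z hz).trans (mul_le_mul_of_nonneg_right h2 (by linarith [wt_ge_one hz]))
  real := h.real

/-- the quotient `H(ζ)/ζ` -/
noncomputable def quo (H : ℂ → ℂ) : ℂ → ℂ := dslope H 0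

lemma quo_mul (h0 : H 0 = 0) (ζ : ℂ) : ζ * quo H ζ = H ζ := by
  have := sub_smul_dslope H 0 ζ
  rw [h0, sub_zero, sub_zero, smul_eq_mul] at this
  exact this

lemma Cls.quo_near (h : Cls ε A H) {ζ : ℂ} (hζ : ζ ∈ ball (0 : ℂ) 1) : ‖quo H ζ - 1‖ ≤ ε := by
  by_cases h0 : ζ = 0
  · subst h0
    unfold quo
    rw [dslope_same]
    exact h.d1 0 (mem_ball_self one_pos)
  · have h1 := h.sub_id_le hζ
    have h2 := quo_mul h.zero ζ
    have e : H ζ - ζ = ζ * (quo H ζ - 1) := by rw [← h2]; ring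
    rw [e, norm_mul, mul_comm] at h1
    exact le_of_mul_le_mul_right h1 (norm_pos_iff.2 h0)

lemma Cls.quo_diff (h : Cls ε A H) : DifferentiableOn ℂ (quo H) (ball 0 1) :=
  (Complex.differentiableOn_dslope (isOpen_ball.mem_nhds (mem_ball_self one_pos))).2 h.diff

lemma Cls.deriv_diff (h : Cls ε A H) : DifferentiableOn ℂ (deriv H) (ball 0 1) :=
  h.diff.deriv isOpen_ball

lemma Cls.quo_deriv (h : Cls ε A H) {ζ : ℂ} (hζ : ζ ∈ ball (0 : ℂ) 1) :
    ζ * deriv (quo H) ζ = deriv H ζ - quo H ζ := by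
  have h1 : HasDerivAt (quo H) (deriv (quo H) ζ) ζ :=
    (h.quo_diff.differentiableAt (isOpen_ball.mem_nhds hζ)).hasDerivAt
  have h2 := (hasDerivAt_id ζ).mul h1
  have e : (id * quo H) = H := by
    ext1 z; exact quo_mul h.zero z
  rw [e] at h2
  rw [h2.deriv]
  simp

lemma Cls.quo_deriv_bound (h : Cls ε A H) {ζ : ℂ} (hζ : ζ ∈ ball (0 : ℂ) 1) (h0 : ζ ≠ 0) :
    ‖deriv (quo H) ζ‖ ≤ 2 * ε := by
  set w : ℂ → ℂ := fun ζ => deriv H ζ - quo H ζ with hw
  have hwd : DifferentiableOn ℂ w (ball 0 1) := h.deriv_diff.sub h.quo_diff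
  have hw0 : w 0 = 0 := by
    simp [hw, quo]
  have hmaps : MapsTo w (ball 0 1) (closedBall (w 0) (2 * ε)) := by
    intro z hz
    rw [hw0, mem_closedBall_zero_iff]
    have h1 := h.d1 z hz
    have h2 := h.quo_near hz
    have e : w z = (deriv H z - 1) - (quo H z - 1) := by simp only [hw]; ring
    rw [e]
    exact (norm_sub_le _ _).trans (by linarith)
  have h3 := Complex.dist_le_div_mul_dist_of_mapsTo_ball hwd hmaps hζ
  rw [hw0, dist_zero_right, dist_zero_right, div_one] at h3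
  have h4 := h.quo_deriv hζ
  have h5 : ‖ζ‖ * ‖deriv (quo H) ζ‖ ≤ 2 * ε * ‖ζ‖ := by
    rw [← norm_mul, h4]; exact h3
  rw [mul_comm] at h5
  exact le_of_mul_le_mul_right h5 (norm_pos_iff.2 h0)

/-- The root transform. -/
noncomputable def root (H : ℂ → ℂ) (z : ℂ) : ℂ := z * sqr (quo H (z ^ 2))

lemma root_sq (h0 : H 0 = 0) (z : ℂ) : root H z ^ 2 = H (z ^ 2) := by
  unfold root
  rw [mul_pow, sqr_sq, quo_mul h0]

lemma root_neg (z : ℂ) : root H (-z) = -root H z := by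
  unfold root
  rw [neg_sq, neg_mul]

lemma sq_mem_ball {z : ℂ} (hz : z ∈ ball (0 : ℂ) 1) : z ^ 2 ∈ ball (0 : ℂ) 1 := by
  rw [mem_ball_zero_iff] at *
  rw [norm_pow]
  nlinarith [norm_nonneg z]

lemma Cls.sqr_quo_hasDerivAt (h : Cls ε A H) (hε : ε ≤ 1 / 1000) {z : ℂ}
    (hz : z ∈ ball (0 : ℂ) 1) :
    HasDerivAt (fun z => sqr (quo H (z ^ 2)))
      (sqr (quo H (z ^ 2)) * (z * (deriv (quo H) (z ^ 2) / quo H (z ^ 2)))) z := by
  have hz2 := sq_mem_ball hz
  have h1 : HasDerivAt (quo H) (deriv (quo H) (z ^ 2)) (z ^ 2) :=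
    (h.quo_diff.differentiableAt (isOpen_ball.mem_nhds hz2)).hasDerivAt
  have h2 : HasDerivAt (fun z : ℂ => z ^ 2) (2 * z) z := by
    have := hasDerivAt_pow 2 z
    simpa using this
  have h3 : HasDerivAt (fun z => quo H (z ^ 2)) (deriv (quo H) (z ^ 2) * (2 * z)) z :=
    HasDerivAt.comp z h1 h2
  have hs := slit_of_near ((h.quo_near hz2).trans hε)
  have h4 := sqr_hasDerivAt h3 hs
  refine h4.congr_deriv ?_
  have hne := slitPlane_ne_zero hs
  field_simp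

lemma Cls.root_hasDerivAt (h : Cls ε A H) (hε : ε ≤ 1 / 1000) {z : ℂ}
    (hz : z ∈ ball (0 : ℂ) 1) :
    HasDerivAt (root H) (deriv H (z ^ 2) / sqr (quo H (z ^ 2))) z := by
  have hz2 := sq_mem_ball hz
  have hs := slit_of_near ((h.quo_near hz2).trans hε)
  have hne := slitPlane_ne_zero hs
  have hne2 := sqr_ne_zero hne
  have h1 := (hasDerivAt_id z).mul (h.sqr_quo_hasDerivAt hε hz)
  have e : (id * fun z => sqr (quo H (z ^ 2))) = root H := rfl
  rw [e] at h1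
  refine h1.congr_deriv ?_
  have h2 := h.quo_deriv hz2
  have h3 := sqr_sq (quo H (z ^ 2))
  have h4 : deriv H (z ^ 2) = quo H (z ^ 2) + z ^ 2 * deriv (quo H) (z ^ 2) := by rw [h2]; ring
  rw [h4, eq_div_iff hne2]
  simp only [id]
  field_simp
  rw [h3]

lemma key_ineq {t : ℝ} (h0 : 0 ≤ t) (h1 : t < 1) :
    2 * t * (1 - t ^ 4) ^ (-(2 / 5) : ℝ) ≤ 1.516 * (1 - t ^ 2) ^ (-(2 / 5) : ℝ) := by
  have e : 1 - t ^ 4 = (1 - t ^ 2) * (1 + t ^ 2) := by ring
  have hp : 0 < 1 - t ^ 2 := by nlinarith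
  rw [e, Real.mul_rpow hp.le (by positivity)]
  have h2 : 2 * t * (1 + t ^ 2) ^ (-(2 / 5) : ℝ) ≤ 1.516 := by
    rcases eq_or_lt_of_le h0 with rfl | ht
    · norm_num
    · have h3 : (1 + t ^ 2) ^ (-(2 / 5) : ℝ) ≤ (2 * t) ^ (-(2 / 5) : ℝ) := by
        apply Real.rpow_le_rpow_of_nonpos (by positivity) _ (by norm_num)
        nlinarith [sq_nonneg (1 - t)]
      have h4 : 2 * t * (2 * t) ^ (-(2 / 5) : ℝ) = (2 * t) ^ (3 / 5 : ℝ) := by
        nth_rewrite 1 [← Real.rpow_one (2 * t)]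
        rw [← Real.rpow_add (by positivity)]
        norm_num
      have h5 : (2 * t) ^ (3 / 5 : ℝ) ≤ (2 : ℝ) ^ (3 / 5 : ℝ) :=
        Real.rpow_le_rpow (by positivity) (by linarith) (by norm_num)
      have h6 : (2 : ℝ) ^ (3 / 5 : ℝ) ≤ 1.516 := by
        have h7 : ((2 : ℝ) ^ (3 / 5 : ℝ)) ^ 5 = 8 := by
          rw [← Real.rpow_natCast, ← Real.rpow_mul (by norm_num)]
          norm_num
        by_contra hcon
        push Not at hcon
        have : (1.516 : ℝ) ^ 5 < ((2 : ℝ) ^ (3 / 5 : ℝ)) ^ 5 :=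
          pow_lt_pow_left₀ hcon (by norm_num) (by norm_num)
        rw [h7] at this
        norm_num at this
      calc 2 * t * (1 + t ^ 2) ^ (-(2 / 5) : ℝ) ≤ 2 * t * (2 * t) ^ (-(2 / 5) : ℝ) := by gcongr
        _ ≤ _ := by rw [h4]; linarith
  have h8 : 0 ≤ (1 - t ^ 2) ^ (-(2 / 5) : ℝ) := Real.rpow_nonneg hp.le _
  calc 2 * t * ((1 - t ^ 2) ^ (-(2 / 5) : ℝ) * (1 + t ^ 2) ^ (-(2 / 5) : ℝ))
      = (2 * t * (1 + t ^ 2) ^ (-(2 / 5) : ℝ)) * (1 - t ^ 2) ^ (-(2 / 5) : ℝ) := by ring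
    _ ≤ _ := mul_le_mul_of_nonneg_right h2 h8

lemma wt_sq {z : ℂ} (hz : z ∈ ball (0 : ℂ) 1) : 2 * ‖z‖ * wt (z ^ 2) ≤ 1.516 * wt z := by
  rw [mem_ball_zero_iff] at hz
  unfold wt
  rw [norm_pow, ← pow_mul]
  exact key_ineq (norm_nonneg z) hz

lemma Cls.ne_zero (h : Cls ε A H) (hε : ε ≤ 1 / 1000) {z : ℂ} (hz : z ∈ ball (0 : ℂ) 1) :
    deriv H z ≠ 0 := by
  intro h0
  have := h.d1 z hz
  rw [h0, zero_sub, norm_neg, norm_one] at this
  linarith

theorem Cls.root (h : Cls ε A H) (hε : ε ≤ 1 / 1000) :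
    Cls (1.51 * ε) (1.516 * A + 2.01 * ε) (root H) where
  diff z hz := (h.root_hasDerivAt hε hz).differentiableAt.differentiableWithinAt
  zero := by simp [Pool.Agent.H56.Fekete.root]
  d1 z hz := by
    have hε0 := h.eps_nonneg
    have hz2 := sq_mem_ball hz
    rw [(h.root_hasDerivAt hε hz).deriv]
    have h1 := h.d1 _ hz2
    have h2 := (sqr_near ((h.quo_near hz2).trans hε)).trans
      (mul_le_mul_of_nonneg_left (h.quo_near hz2) (by norm_num))
    have h3 : 0.999 ≤ ‖sqr (quo H (z ^ 2))‖ := by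
      have := norm_ge_one_sub h2
      linarith
    have hne : sqr (quo H (z ^ 2)) ≠ 0 := by
      rw [← norm_pos_iff]; linarith
    have e : deriv H (z ^ 2) / sqr (quo H (z ^ 2)) - 1 =
        ((deriv H (z ^ 2) - 1) - (sqr (quo H (z ^ 2)) - 1)) / sqr (quo H (z ^ 2)) := by
      field_simp
      ring
    rw [e, norm_div, div_le_iff₀ (by linarith)]
    refine (norm_sub_le _ _).trans ?_
    nlinarith
  d2 z hz := by
    have hε0 := h.eps_nonneg
    have hz2 := sq_mem_ball hz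
    have hs := slit_of_near ((h.quo_near hz2).trans hε)
    have hne := slitPlane_ne_zero hs
    have hne2 := sqr_ne_zero hne
    have hH := h.ne_zero hε hz2
    have hev : deriv (Pool.Agent.H56.Fekete.root H) =ᶠ[𝓝 z]
        fun z => deriv H (z ^ 2) / sqr (quo H (z ^ 2)) := by
      filter_upwards [isOpen_ball.mem_nhds hz] with w hw
      exact (h.root_hasDerivAt hε hw).deriv
    have h1 : HasDerivAt (fun z : ℂ => z ^ 2) (2 * z) z := by
      have := hasDerivAt_pow 2 z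
      simpa using this
    have h2' : HasDerivAt (deriv H) (deriv (deriv H) (z ^ 2)) (z ^ 2) :=
      (h.deriv_diff.differentiableAt (isOpen_ball.mem_nhds hz2)).hasDerivAt
    have h2 : HasDerivAt (fun z => deriv H (z ^ 2)) (deriv (deriv H) (z ^ 2) * (2 * z)) z :=
      HasDerivAt.comp (h₂ := deriv H) (h := fun z : ℂ => z ^ 2) z h2' h1
    have h3 := h2.div (h.sqr_quo_hasDerivAt hε hz) hne2
    have h4 : deriv (deriv (Pool.Agent.H56.Fekete.root H)) z /
        deriv (Pool.Agent.H56.Fekete.root H) z =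
        2 * z * (deriv (deriv H) (z ^ 2) / deriv H (z ^ 2)) -
          z * (deriv (quo H) (z ^ 2) / quo H (z ^ 2)) := by
      rw [hev.deriv_eq, (h.root_hasDerivAt hε hz).deriv]
      have h5 := h3.deriv
      have e : (fun z => deriv H (z ^ 2) / sqr (quo H (z ^ 2))) =
        ((fun z => deriv H (z ^ 2)) / fun z => sqr (quo H (z ^ 2))) := rfl
      rw [e, h5]
      field_simp
    rw [h4]
    refine (norm_sub_le _ _).trans ?_
    have hb1 : ‖2 * z * (deriv (deriv H) (z ^ 2) / deriv H (z ^ 2))‖ ≤ 1.516 * A * wt z := by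
      rw [norm_mul, norm_mul, Complex.norm_ofNat]
      have hA := h.d2 _ hz2
      have hA0 : 0 ≤ A := by
        have h6 := (norm_nonneg _).trans hA
        have h7 := wt_ge_one hz2
        by_contra hcon
        push Not at hcon
        nlinarith
      calc 2 * ‖z‖ * ‖deriv (deriv H) (z ^ 2) / deriv H (z ^ 2)‖
          ≤ 2 * ‖z‖ * (A * wt (z ^ 2)) := by gcongr
        _ = A * (2 * ‖z‖ * wt (z ^ 2)) := by ring
        _ ≤ A * (1.516 * wt z) := mul_le_mul_of_nonneg_left (wt_sq hz) hA0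
        _ = _ := by ring
    have hb2 : ‖z * (deriv (quo H) (z ^ 2) / quo H (z ^ 2))‖ ≤ 2.01 * ε * wt z := by
      have hw := wt_ge_one hz
      by_cases h0 : z = 0
      · subst h0
        simp only [zero_mul, norm_zero]
        positivity
      · have h6 := h.quo_deriv_bound hz2 (pow_ne_zero 2 h0)
        have h7 := norm_ge_one_sub (h.quo_near hz2)
        rw [mem_ball_zero_iff] at hz
        rw [norm_mul, norm_div]
        have h8 : ‖deriv (quo H) (z ^ 2)‖ / ‖quo H (z ^ 2)‖ ≤ 2.01 * ε := by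
          rw [div_le_iff₀ (by linarith)]
          nlinarith
        calc ‖z‖ * (‖deriv (quo H) (z ^ 2)‖ / ‖quo H (z ^ 2)‖) ≤ 1 * (2.01 * ε) := by
              apply mul_le_mul hz.le h8 (by positivity) (by norm_num)
          _ = 2.01 * ε * 1 := by ring
          _ ≤ _ := by gcongr
    calc _ ≤ 1.516 * A * wt z + 2.01 * ε * wt z := add_le_add hb1 hb2
      _ = _ := by ring
  real x hx := by
    unfold Pool.Agent.H56.Fekete.root
    have hxb : (x : ℂ) ∈ ball (0 : ℂ) 1 := by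
      rw [mem_ball_zero_iff, Complex.norm_real]; exact hx
    have hx2 := sq_mem_ball hxb
    by_cases h0 : x = 0
    · subst h0; simp
    · have h0' : ((x : ℂ)) ^ 2 ≠ 0 := by
        apply pow_ne_zero; exact_mod_cast h0
      have h1 := quo_mul h.zero ((x : ℂ) ^ 2)
      have hxx : |x ^ 2| < 1 := by
        rw [abs_pow]
        have := abs_nonneg x
        nlinarith
      have h2 := h.real (x ^ 2) hxx
      have h3 : H ((x : ℂ) ^ 2) = ((H ((x : ℂ) ^ 2)).re : ℂ) := by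
        apply Complex.ext
        · simp
        · rw [Complex.ofReal_im]
          push_cast at h2
          exact h2
      have h4 : quo H ((x : ℂ) ^ 2) = (((H ((x : ℂ) ^ 2)).re / x ^ 2 : ℝ) : ℂ) := by
        rw [Complex.ofReal_div, ← h3, Complex.ofReal_pow, ← h1, mul_div_cancel_left₀ _ h0']
      have h5 := h.quo_near hx2
      rw [h4] at h5
      have h6 : 0 ≤ (H ((x : ℂ) ^ 2)).re / x ^ 2 := by
        have h7 := (Complex.abs_re_le_norm _).trans h5
        rw [Complex.sub_re, Complex.ofReal_re, Complex.one_re] at h7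
        have := (abs_le.1 h7).1
        linarith
      rw [h4, Complex.mul_im, sqr_ofReal h6, Complex.ofReal_im]
      ring

end Pool.Agent.H56.Fekete
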