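import Pool.Agent.H56.Fekete.Root

/-!
# The interior and exterior steps
-/

namespace Pool.Agent.H56.Fekete

open Complex Metric Set Filter Topology

variable {ε A a α : ℝ} {φ φ' H : ℂ → ℂ}

/-! ### Differences -/

lemma quo_sub_bound {H₁ H₂ : ℂ → ℂ} (h1 : DifferentiableOn ℂ H₁ (ball 0 1))
    (h2 : DifferentiableOn ℂ H₂ (ball 0 1)) (z1 : H₁ 0 = 0) (z2 : H₂ 0 = 0) {C : ℝ}
    (hC : ∀ z ∈ ball (0 : ℂ) 1, ‖H₁ z - H₂ z‖ ≤ C) {ζ : ℂ} (hζ : ζ ∈ ball (0 : ℂ) 1) :
    ‖quo H₁ ζ - quo H₂ ζ‖ ≤ C := by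
  have hd : DifferentiableOn ℂ (fun z => H₁ z - H₂ z) (ball 0 1) := h1.sub h2
  have hm : MapsTo (fun z => H₁ z - H₂ z) (ball 0 1)
      (closedBall ((fun z => H₁ z - H₂ z) 0) C) := by
    intro z hz
    simp only [z1, z2, sub_zero, mem_closedBall_zero_iff]
    exact hC z hz
  have h3 := Complex.norm_dslope_le_div_of_mapsTo_ball hd hm hζ
  rw [div_one] at h3
  have hb : ball (0 : ℂ) 1 ∈ 𝓝 (0 : ℂ) := isOpen_ball.mem_nhds (mem_ball_self one_pos)
  have e : dslope (fun z => H₁ z - H₂ z) 0 ζ = quo H₁ ζ - quo H₂ ζ := by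
    unfold quo
    by_cases h0 : ζ = 0
    · subst h0
      rw [dslope_same, dslope_same, dslope_same]
      exact ((h1.differentiableAt hb).hasDerivAt.sub (h2.differentiableAt hb).hasDerivAt).deriv
    · rw [dslope_of_ne _ h0, dslope_of_ne _ h0, dslope_of_ne _ h0]
      simp only [slope_def_field, z1, z2, sub_zero]
      ring
  rwa [e] at h3

lemma root_sub_bound {B : ℝ} (h1 : Cls ε A φ) (h2 : Cls ε B φ') (hε : ε ≤ 1 / 1000) {C : ℝ}
    (hC : ∀ z ∈ ball (0 : ℂ) 1, ‖φ z - φ' z‖ ≤ C) {z : ℂ} (hz : z ∈ ball (0 : ℂ) 1) :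
    ‖root φ z - root φ' z‖ ≤ 0.502 * C := by
  have hz2 := sq_mem_ball hz
  unfold root
  rw [← mul_sub, norm_mul]
  have h3 := quo_sub_bound h1.diff h2.diff h1.zero h2.zero hC hz2
  have h4 := sqr_diff ((h1.quo_near hz2).trans hε) ((h2.quo_near hz2).trans hε)
  rw [mem_ball_zero_iff] at hz
  have h5 := norm_nonneg (sqr (quo φ (z ^ 2)) - sqr (quo φ' (z ^ 2)))
  nlinarith [norm_nonneg z]

lemma Cls.small (h : Cls ε A φ) (hε : ε ≤ 1 / 1000) {z : ℂ} (hz : z ∈ ball (0 : ℂ) 1) :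
    ‖φ z‖ ≤ 1.001 := by
  have h1 := h.sub_id_le hz
  have h2 := norm_sub_norm_le (φ z) z
  rw [mem_ball_zero_iff] at hz
  have := h.eps_nonneg
  nlinarith [norm_nonneg z]

/-! ### The interior step -/

/-- the disc automorphism -/
noncomputable def mob (α : ℝ) (z : ℂ) : ℂ := (z - α) / (1 - α * z)

/-- the interior step -/
noncomputable def Sint (α : ℝ) (φ : ℂ → ℂ) (ζ : ℂ) : ℂ := φ (mob α ζ) - φ (-(α : ℂ))

lemma den_bound (h0 : 0 ≤ α) (z : ℂ) (hz : z ∈ closedBall (0 : ℂ) 1) :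
    1 - α ≤ ‖1 - α * z‖ := by
  rw [mem_closedBall_zero_iff] at hz
  have h1 := norm_sub_norm_le (1 : ℂ) (α * z)
  rw [norm_one, norm_mul, Complex.norm_real, Real.norm_of_nonneg h0] at h1
  nlinarith [norm_nonneg z]

lemma den_ne_zero (h0 : 0 ≤ α) (h1 : α < 1) {z : ℂ} (hz : z ∈ closedBall (0 : ℂ) 1) :
    1 - (α : ℂ) * z ≠ 0 := by
  rw [← norm_pos_iff]
  linarith [den_bound h0 z hz]

lemma mob_id (z : ℂ) : ‖1 - α * z‖ ^ 2 - ‖z - α‖ ^ 2 = (1 - α ^ 2) * (1 - ‖z‖ ^ 2) := by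
  rw [← Complex.normSq_eq_norm_sq, ← Complex.normSq_eq_norm_sq, ← Complex.normSq_eq_norm_sq,
    Complex.normSq_apply, Complex.normSq_apply, Complex.normSq_apply]
  simp
  ring

lemma mob_norm_sq (h0 : 0 ≤ α) (h1 : α < 1) {z : ℂ} (hz : z ∈ closedBall (0 : ℂ) 1) :
    1 - ‖mob α z‖ ^ 2 = (1 - ‖z‖ ^ 2) * ((1 - α ^ 2) / ‖1 - α * z‖ ^ 2) := by
  have hne := norm_pos_iff.2 (den_ne_zero h0 h1 hz)
  unfold mob
  rw [norm_div, div_pow]
  have h2 := mob_id (α := α) z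
  generalize ‖1 - α * z‖ = N at *
  generalize ‖z - α‖ = Q at *
  generalize ‖z‖ = R at *
  field_simp
  linarith

lemma mob_mem (h0 : 0 ≤ α) (h1 : α < 1) {z : ℂ} (hz : z ∈ ball (0 : ℂ) 1) :
    mob α z ∈ ball (0 : ℂ) 1 := by
  have hne := norm_pos_iff.2 (den_ne_zero h0 h1 (ball_subset_closedBall hz))
  have h2 := mob_norm_sq h0 h1 (ball_subset_closedBall hz)
  rw [mem_ball_zero_iff] at *
  have h3 : 0 < (1 - ‖z‖ ^ 2) * ((1 - α ^ 2) / ‖1 - α * z‖ ^ 2) := by
    apply mul_pos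
    · nlinarith [norm_nonneg z]
    · apply div_pos _ (by positivity)
      nlinarith
  rw [← h2] at h3
  by_contra hcon
  push Not at hcon
  nlinarith

/-- derivative of `mob` -/
noncomputable def mob' (α : ℝ) (z : ℂ) : ℂ := (1 - (α : ℂ) ^ 2) / (1 - α * z) ^ 2

lemma mob_hasDerivAt (h0 : 0 ≤ α) (h1 : α < 1) {z : ℂ} (hz : z ∈ ball (0 : ℂ) 1) :
    HasDerivAt (mob α) (mob' α z) z := by
  have hne := den_ne_zero h0 h1 (ball_subset_closedBall hz)
  have h2 : HasDerivAt (fun z : ℂ => z - α) 1 z := (hasDerivAt_id z).sub_const _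
  have h3 : HasDerivAt (fun z : ℂ => 1 - α * z) (-(α * 1)) z :=
    ((hasDerivAt_id z).const_mul (α : ℂ)).const_sub 1
  refine (h2.div h3 hne).congr_deriv ?_
  unfold mob'
  congr 1
  ring

lemma mob'_norm (h0 : 0 ≤ α) (h1 : α < 1) (z : ℂ) :
    ‖mob' α z‖ = (1 - α ^ 2) / ‖1 - α * z‖ ^ 2 := by
  unfold mob'
  rw [norm_div, norm_pow]
  congr 1
  have : (1 - (α : ℂ) ^ 2) = ((1 - α ^ 2 : ℝ) : ℂ) := by push_cast; rfl
  rw [this, Complex.norm_real, Real.norm_of_nonneg]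
  nlinarith

lemma mob'_near (h0 : 0 ≤ α) (h1 : α ≤ 1 / 100) {z : ℂ} (hz : z ∈ ball (0 : ℂ) 1) :
    ‖mob' α z - 1‖ ≤ 2.1 * α := by
  have hne := den_ne_zero h0 (by linarith) (ball_subset_closedBall hz)
  have hd := den_bound h0 z (ball_subset_closedBall hz)
  rw [mem_ball_zero_iff] at hz
  have e : mob' α z - 1 = (α * (2 * z - α - α * z ^ 2)) / (1 - α * z) ^ 2 := by
    unfold mob'
    field_simp
    ring
  rw [e, norm_div, norm_pow, div_le_iff₀ (by positivity), norm_mul, Complex.norm_real,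
    Real.norm_of_nonneg h0]
  have h2 : ‖2 * z - α - α * z ^ 2‖ ≤ 2 + 2 * α := by
    refine (norm_sub_le _ _).trans ?_
    have h3 : ‖2 * z - α‖ ≤ 2 + α := by
      refine (norm_sub_le _ _).trans ?_
      rw [norm_mul, Complex.norm_ofNat, Complex.norm_real, Real.norm_of_nonneg h0]
      linarith
    have h4 : ‖(α : ℂ) * z ^ 2‖ ≤ α := by
      rw [norm_mul, norm_pow, Complex.norm_real, Real.norm_of_nonneg h0]
      have : ‖z‖ ^ 2 ≤ 1 := by nlinarith [norm_nonneg z]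
      nlinarith
    linarith
  have h5 : (1 - α) ^ 2 ≤ ‖1 - α * z‖ ^ 2 := by
    apply pow_le_pow_left₀ (by linarith) hd
  have h6 : α * (2 + 2 * α) ≤ 2.1 * α * (1 - α) ^ 2 := by nlinarith [mul_nonneg h0 h0]
  calc α * ‖2 * z - α - α * z ^ 2‖ ≤ α * (2 + 2 * α) := by gcongr
    _ ≤ 2.1 * α * (1 - α) ^ 2 := h6
    _ ≤ _ := by gcongr

lemma wt_mob (h0 : 0 ≤ α) (h1 : α ≤ 1 / 100) {z : ℂ} (hz : z ∈ ball (0 : ℂ) 1) :
    wt (mob α z) * ‖mob' α z‖ ≤ (1 + 2.1 * α) * wt z := by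
  have hα1 : α < 1 := by linarith
  have hzc := ball_subset_closedBall hz
  have h2 := mob_norm_sq h0 hα1 hzc
  have hb := norm_le_one_add (mob'_near h0 h1 hz)
  have hlow := norm_ge_one_sub (mob'_near h0 h1 hz)
  rw [← mob'_norm h0 hα1] at h2
  have hpos : 0 < 1 - ‖z‖ ^ 2 := by
    rw [mem_ball_zero_iff] at hz
    nlinarith [norm_nonneg z]
  have hmp : 0 < ‖mob' α z‖ := by linarith
  unfold wt
  rw [h2, Real.mul_rpow hpos.le hmp.le]
  have h3 : ‖mob' α z‖ ^ (-(2 / 5) : ℝ) * ‖mob' α z‖ ≤ 1 + 2.1 * α := by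
    have e : ‖mob' α z‖ ^ (-(2 / 5) : ℝ) * ‖mob' α z‖ = ‖mob' α z‖ ^ (3 / 5 : ℝ) := by
      nth_rewrite 2 [← Real.rpow_one ‖mob' α z‖]
      rw [← Real.rpow_add hmp]
      norm_num
    rw [e]
    calc ‖mob' α z‖ ^ (3 / 5 : ℝ) ≤ (1 + 2.1 * α) ^ (3 / 5 : ℝ) :=
          Real.rpow_le_rpow hmp.le hb (by norm_num)
      _ ≤ (1 + 2.1 * α) ^ (1 : ℝ) :=
          Real.rpow_le_rpow_of_exponent_le (by linarith) (by norm_num)
      _ = _ := Real.rpow_one _
  have h4 : 0 ≤ (1 - ‖z‖ ^ 2) ^ (-(2 / 5) : ℝ) := Real.rpow_nonneg hpos.le _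
  calc (1 - ‖z‖ ^ 2) ^ (-(2 / 5) : ℝ) * ‖mob' α z‖ ^ (-(2 / 5) : ℝ) * ‖mob' α z‖
      = (‖mob' α z‖ ^ (-(2 / 5) : ℝ) * ‖mob' α z‖) * (1 - ‖z‖ ^ 2) ^ (-(2 / 5) : ℝ) := by ring
    _ ≤ _ := mul_le_mul_of_nonneg_right h3 h4

lemma neg_mem_ball (h0 : 0 ≤ α) (h1 : α < 1) : -(α : ℂ) ∈ ball (0 : ℂ) 1 := by
  rw [mem_ball_zero_iff, norm_neg, Complex.norm_real, Real.norm_of_nonneg h0]
  exact h1

lemma mob_real (x : ℝ) : mob α x = ((x - α) / (1 - α * x) : ℝ) := by
  unfold mob; push_cast; rfl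

theorem Cls.sint (h : Cls ε A φ) (h0 : 0 ≤ α) (h1 : α ≤ 1 / 100) :
    Cls ((1 + 2.1 * α) * ε + 2.1 * α) ((1 + 2.1 * α) * A + 2.1 * α) (Sint α φ) := by
  have hα1 : α < 1 := by linarith
  have hε0 := h.eps_nonneg
  have hder : ∀ z ∈ ball (0 : ℂ) 1, HasDerivAt (Sint α φ) (deriv φ (mob α z) * mob' α z) z := by
    intro z hz
    have h2 : HasDerivAt φ (deriv φ (mob α z)) (mob α z) :=
      (h.diff.differentiableAt (isOpen_ball.mem_nhds (mob_mem h0 hα1 hz))).hasDerivAt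
    exact (HasDerivAt.comp z h2 (mob_hasDerivAt h0 hα1 hz)).sub_const _
  refine
    { diff := fun z hz => (hder z hz).differentiableAt.differentiableWithinAt
      zero := ?_
      d1 := ?_
      d2 := ?_
      real := ?_ }
  · simp [Sint, mob]
  · intro z hz
    rw [(hder z hz).deriv]
    have h2 := h.d1 _ (mob_mem h0 hα1 hz)
    have h3 := mob'_near h0 h1 hz
    have h4 := norm_le_one_add h3
    have e : deriv φ (mob α z) * mob' α z - 1 =
        (deriv φ (mob α z) - 1) * mob' α z + (mob' α z - 1) := by ring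
    rw [e]
    refine (norm_add_le _ _).trans ?_
    rw [norm_mul]
    nlinarith [norm_nonneg (deriv φ (mob α z) - 1), norm_nonneg (mob' α z)]
  · intro z hz
    have hm := mob_mem h0 hα1 hz
    have hne := den_ne_zero h0 hα1 (ball_subset_closedBall hz)
    have hev : deriv (Sint α φ) =ᶠ[𝓝 z] fun z => deriv φ (mob α z) * mob' α z := by
      filter_upwards [isOpen_ball.mem_nhds hz] with w hw
      exact (hder w hw).deriv
    have h2' : HasDerivAt (deriv φ) (deriv (deriv φ) (mob α z)) (mob α z) :=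
      (h.deriv_diff.differentiableAt (isOpen_ball.mem_nhds hm)).hasDerivAt
    have h2 : HasDerivAt (fun z => deriv φ (mob α z)) (deriv (deriv φ) (mob α z) * mob' α z) z :=
      HasDerivAt.comp (h₂ := deriv φ) (h := mob α) z h2' (mob_hasDerivAt h0 hα1 hz)
    have h3 : HasDerivAt (mob' α) (mob' α z * (2 * α / (1 - α * z))) z := by
      have h4 : HasDerivAt (fun z : ℂ => 1 - α * z) (-(α * 1)) z :=
        ((hasDerivAt_id z).const_mul (α : ℂ)).const_sub 1
      have h5 := (h4.pow 2).inv (pow_ne_zero 2 hne)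
      have h6 := h5.const_mul (1 - (α : ℂ) ^ 2)
      have e : (mob' α) = fun z => (1 - (α : ℂ) ^ 2) * (((fun z : ℂ => 1 - α * z) ^ 2)⁻¹) z := by
        ext1 z; simp [mob', div_eq_mul_inv]
      rw [e]
      refine h6.congr_deriv ?_
      simp
      field_simp
    have h7 := h2.mul h3
    have hmne : mob' α z ≠ 0 := by
      rw [← norm_pos_iff]
      have := norm_ge_one_sub (mob'_near h0 h1 hz)
      linarith
    have hφne : deriv φ (mob α z) ≠ 0 ∨ deriv φ (mob α z) = 0 := by tauto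
    have hkey : ‖deriv (deriv (Sint α φ)) z / deriv (Sint α φ) z‖ ≤
        ‖deriv (deriv φ) (mob α z) / deriv φ (mob α z)‖ * ‖mob' α z‖ +
          ‖(2 : ℂ) * α / (1 - α * z)‖ := by
      rw [hev.deriv_eq, (hder z hz).deriv]
      have e : (fun z => deriv φ (mob α z) * mob' α z) =
        ((fun z => deriv φ (mob α z)) * mob' α) := rfl
      rw [e, h7.deriv]
      rcases hφne with hφ | hφ
      · have e2 : (deriv (deriv φ) (mob α z) * mob' α z * mob' α z +
            deriv φ (mob α z) * (mob' α z * (2 * α / (1 - α * z)))) /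
            (deriv φ (mob α z) * mob' α z) =
            deriv (deriv φ) (mob α z) / deriv φ (mob α z) * mob' α z +
              2 * α / (1 - α * z) := by
          field_simp
        rw [e2, ← norm_mul]
        exact norm_add_le _ _
      · rw [hφ]
        simp only [zero_mul, div_zero, norm_zero, zero_add]
        exact norm_nonneg _
    refine hkey.trans ?_
    have hw1 := wt_ge_one hz
    have hwm := wt_ge_one hm
    have hA := h.d2 _ hm
    have hA0 : 0 ≤ A := by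
      have h6 := (norm_nonneg _).trans hA
      by_contra hcon
      push Not at hcon
      nlinarith
    have hb1 : ‖deriv (deriv φ) (mob α z) / deriv φ (mob α z)‖ * ‖mob' α z‖ ≤
        (1 + 2.1 * α) * A * wt z := by
      calc _ ≤ A * wt (mob α z) * ‖mob' α z‖ := by gcongr
        _ = A * (wt (mob α z) * ‖mob' α z‖) := by ring
        _ ≤ A * ((1 + 2.1 * α) * wt z) := mul_le_mul_of_nonneg_left (wt_mob h0 h1 hz) hA0
        _ = _ := by ring
    have hb2 : ‖(2 : ℂ) * α / (1 - α * z)‖ ≤ 2.1 * α * wt z := by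
      have hd := den_bound h0 z (ball_subset_closedBall hz)
      rw [norm_div, norm_mul, Complex.norm_ofNat, Complex.norm_real, Real.norm_of_nonneg h0,
        div_le_iff₀ (by linarith)]
      have h8 : (1 : ℝ) * 0.99 ≤ wt z * ‖1 - α * z‖ :=
        mul_le_mul hw1 (by linarith) (by norm_num) (by linarith)
      nlinarith
    linarith
  · intro x hx
    have hx' : ((x : ℝ) : ℂ) ∈ ball (0 : ℂ) 1 := by
      rw [mem_ball_zero_iff, Complex.norm_real]; exact hx
    have hm := mob_mem h0 hα1 hx'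
    unfold Sint
    rw [mob_real] at hm ⊢
    rw [mem_ball_zero_iff, Complex.norm_real] at hm
    rw [Complex.sub_im, h.real _ hm]
    have := h.real (-α) (by rw [abs_neg, abs_of_nonneg h0]; exact hα1)
    push_cast at this
    rw [this, sub_zero]

lemma sint_sub_bound {B : ℝ} (h1 : Cls ε A φ) (h2 : Cls ε B φ') (h0 : 0 ≤ α)
    (hα : α ≤ 1 / 100) {C : ℝ} (hC : ∀ z ∈ ball (0 : ℂ) 1, ‖φ z - φ' z‖ ≤ C) {z : ℂ}
    (hz : z ∈ ball (0 : ℂ) 1) : ‖Sint α φ z - Sint α φ' z‖ ≤ 1.01 * C := by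
  have hα1 : α < 1 := by linarith
  unfold Sint
  have h3 := hC _ (mob_mem h0 hα1 hz)
  have hm : MapsTo (fun z => φ z - φ' z) (ball 0 1)
      (closedBall ((fun z => φ z - φ' z) 0) C) := by
    intro z hz
    simp only [h1.zero, h2.zero, sub_zero, mem_closedBall_zero_iff]
    exact hC z hz
  have h4 := Complex.dist_le_div_mul_dist_of_mapsTo_ball (h1.diff.sub h2.diff) hm
    (neg_mem_ball h0 hα1)
  have h5 : ‖φ (-(α : ℂ)) - φ' (-(α : ℂ))‖ ≤ C * α := by
    have e : dist ((φ - φ') (-(α : ℂ))) ((φ - φ') 0) = ‖φ (-(α : ℂ)) - φ' (-(α : ℂ))‖ := by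
      rw [dist_eq_norm]
      simp [h1.zero, h2.zero]
    have e2 : dist (-(α : ℂ)) 0 = α := by
      rw [dist_zero_right, norm_neg, Complex.norm_real, Real.norm_of_nonneg h0]
    rw [e, e2, div_one] at h4
    exact h4
  have hC0 : 0 ≤ C := (norm_nonneg _).trans (hC 0 (mem_ball_self one_pos))
  have e : φ (mob α z) - φ (-(α : ℂ)) - (φ' (mob α z) - φ' (-(α : ℂ))) =
      (φ (mob α z) - φ' (mob α z)) - (φ (-(α : ℂ)) - φ' (-(α : ℂ))) := by ring
  rw [e]
  refine (norm_sub_le _ _).trans ?_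
  nlinarith

/-! ### The exterior step -/

/-- the exterior step -/
noncomputable def Sext (a : ℝ) (φ : ℂ → ℂ) (ζ : ℂ) : ℂ := φ ζ / (1 + a * φ ζ)

lemma dene_bound (h0 : 0 ≤ a) {w : ℂ} (hw : ‖w‖ ≤ 1.001) : 1 - 1.001 * a ≤ ‖1 + a * w‖ := by
  have h1 := norm_sub_norm_le (1 : ℂ) (-(a * w))
  rw [norm_one, norm_neg, norm_mul, Complex.norm_real, Real.norm_of_nonneg h0,
    sub_neg_eq_add] at h1
  nlinarith [norm_nonneg w]

theorem Cls.sext (h : Cls ε A φ) (hε : ε ≤ 1 / 1000) (h0 : 0 ≤ a) (h1 : a ≤ 1 / 100) :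
    Cls ((1 + 2.1 * a) * ε + 2.1 * a) ((1 + 2.1 * a) * A + 2.1 * a) (Sext a φ) := by
  have hε0 := h.eps_nonneg
  have hlow : ∀ z ∈ ball (0 : ℂ) 1, 0.98 ≤ ‖1 + a * φ z‖ := by
    intro z hz
    have := dene_bound h0 (h.small hε hz)
    linarith
  have hne : ∀ z ∈ ball (0 : ℂ) 1, 1 + a * φ z ≠ 0 := by
    intro z hz
    rw [← norm_pos_iff]
    linarith [hlow z hz]
  have hφ : ∀ z ∈ ball (0 : ℂ) 1, HasDerivAt φ (deriv φ z) z := fun z hz =>
    (h.diff.differentiableAt (isOpen_ball.mem_nhds hz)).hasDerivAt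
  have hden : ∀ z ∈ ball (0 : ℂ) 1, HasDerivAt (fun z => 1 + a * φ z) (a * deriv φ z) z :=
    fun z hz => ((hφ z hz).const_mul (a : ℂ)).const_add 1
  have hder : ∀ z ∈ ball (0 : ℂ) 1,
      HasDerivAt (Sext a φ) (deriv φ z / (1 + a * φ z) ^ 2) z := by
    intro z hz
    refine ((hφ z hz).div (hden z hz) (hne z hz)).congr_deriv ?_
    congr 1
    ring
  refine
    { diff := fun z hz => (hder z hz).differentiableAt.differentiableWithinAt
      zero := ?_
      d1 := ?_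
      d2 := ?_
      real := ?_ }
  · simp [Sext, h.zero]
  · intro z hz
    rw [(hder z hz).deriv]
    have h2 := h.d1 z hz
    have h3 := h.small hε hz
    have h4 := dene_bound h0 h3
    have hz' := hne z hz
    have e : deriv φ z / (1 + a * φ z) ^ 2 - 1 =
        ((deriv φ z - 1) - a * (φ z * (2 + a * φ z))) / (1 + a * φ z) ^ 2 := by
      field_simp
      ring
    rw [e, norm_div, norm_pow, div_le_iff₀ (by positivity)]
    have h5 : (1 - 1.001 * a) ^ 2 ≤ ‖1 + a * φ z‖ ^ 2 :=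
      pow_le_pow_left₀ (by linarith) h4 2
    have h6 : ‖(a : ℂ) * (φ z * (2 + a * φ z))‖ ≤ a * (1.001 * (2 + 1.001 * a)) := by
      rw [norm_mul, norm_mul, Complex.norm_real, Real.norm_of_nonneg h0]
      have h7 : ‖2 + a * φ z‖ ≤ 2 + 1.001 * a := by
        refine (norm_add_le _ _).trans ?_
        rw [Complex.norm_ofNat, norm_mul, Complex.norm_real, Real.norm_of_nonneg h0]
        nlinarith
      gcongr
    have h8 := norm_sub_le (deriv φ z - 1) (a * (φ z * (2 + a * φ z)))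
    have h9 : ε + a * (1.001 * (2 + 1.001 * a)) ≤
        ((1 + 2.1 * a) * ε + 2.1 * a) * (1 - 1.001 * a) ^ 2 := by
      have h10 : ε ≤ (1 + 2.1 * a) * ε * (1 - 1.001 * a) ^ 2 := by
        have : 1 ≤ (1 + 2.1 * a) * (1 - 1.001 * a) ^ 2 := by nlinarith [mul_nonneg h0 h0]
        nlinarith
      have h11 : a * (1.001 * (2 + 1.001 * a)) ≤ 2.1 * a * (1 - 1.001 * a) ^ 2 := by
        have : 1.001 * (2 + 1.001 * a) ≤ 2.1 * (1 - 1.001 * a) ^ 2 := by nlinarith
        nlinarith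
      nlinarith
    calc _ ≤ ε + a * (1.001 * (2 + 1.001 * a)) := by linarith
      _ ≤ ((1 + 2.1 * a) * ε + 2.1 * a) * (1 - 1.001 * a) ^ 2 := h9
      _ ≤ _ := by gcongr
  · intro z hz
    have hz' := hne z hz
    have hev : deriv (Sext a φ) =ᶠ[𝓝 z] fun z => deriv φ z / (1 + a * φ z) ^ 2 := by
      filter_upwards [isOpen_ball.mem_nhds hz] with w hw
      exact (hder w hw).deriv
    have h2 : HasDerivAt (deriv φ) (deriv (deriv φ) z) z :=
      (h.deriv_diff.differentiableAt (isOpen_ball.mem_nhds hz)).hasDerivAt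
    have h3 := h2.div ((hden z hz).pow 2) (pow_ne_zero 2 hz')
    have hφz := h.ne_zero hε hz
    have hkey : deriv (deriv (Sext a φ)) z / deriv (Sext a φ) z =
        deriv (deriv φ) z / deriv φ z - 2 * a * deriv φ z / (1 + a * φ z) := by
      rw [hev.deriv_eq, (hder z hz).deriv]
      have e : (fun z => deriv φ z / (1 + a * φ z) ^ 2) =
        (deriv φ / (fun z => 1 + a * φ z) ^ 2) := rfl
      rw [e, h3.deriv]
      simp only [Pi.pow_apply]
      field_simp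
      simp
      ring
    rw [hkey]
    refine (norm_sub_le _ _).trans ?_
    have hw1 := wt_ge_one hz
    have hA := h.d2 z hz
    have hA0 : 0 ≤ A := by
      have h6 := (norm_nonneg _).trans hA
      by_contra hcon
      push Not at hcon
      nlinarith
    have hb2 : ‖2 * (a : ℂ) * deriv φ z / (1 + a * φ z)‖ ≤ 2.1 * a * wt z := by
      have hd := dene_bound h0 (h.small hε hz)
      have hd2 := hlow z hz
      have hd3 := norm_le_one_add ((h.d1 z hz).trans hε)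
      rw [norm_div, norm_mul, norm_mul, Complex.norm_ofNat, Complex.norm_real,
        Real.norm_of_nonneg h0, div_le_iff₀ (by linarith)]
      have h8 : (1 : ℝ) * 0.98 ≤ wt z * ‖1 + a * φ z‖ :=
        mul_le_mul hw1 hd2 (by norm_num) (by linarith)
      nlinarith
    nlinarith [mul_nonneg (mul_nonneg h0 hA0) (by linarith : (0 : ℝ) ≤ wt z)]
  · intro x hx
    have h2 := h.real x hx
    unfold Sext
    have h3 : φ x = ((φ x).re : ℂ) := by
      apply Complex.ext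
      · simp
      · rw [Complex.ofReal_im]; exact h2
    rw [h3]
    have : ((φ x).re : ℂ) / (1 + a * ((φ x).re : ℂ)) =
        (((φ x).re / (1 + a * (φ x).re) : ℝ) : ℂ) := by push_cast; rfl
    rw [this, Complex.ofReal_im]

lemma sext_sub_bound {B : ℝ} (h1 : Cls ε A φ) (h2 : Cls ε B φ') (hε : ε ≤ 1 / 1000)
    (h0 : 0 ≤ a) (ha : a ≤ 1 / 1000) {C : ℝ}
    (hC : ∀ z ∈ ball (0 : ℂ) 1, ‖φ z - φ' z‖ ≤ C) {z : ℂ}
    (hz : z ∈ ball (0 : ℂ) 1) : ‖Sext a φ z - Sext a φ' z‖ ≤ 1.01 * C := by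
  have hb1 := dene_bound h0 (h1.small hε hz)
  have hb2 := dene_bound h0 (h2.small hε hz)
  have hn1 : 1 + a * φ z ≠ 0 := by rw [← norm_pos_iff]; linarith
  have hn2 : 1 + a * φ' z ≠ 0 := by rw [← norm_pos_iff]; linarith
  have e : Sext a φ z - Sext a φ' z = (φ z - φ' z) / ((1 + a * φ z) * (1 + a * φ' z)) := by
    unfold Sext
    rw [div_sub_div _ _ hn1 hn2]
    congr 1
    ring
  have hC0 : 0 ≤ C := (norm_nonneg _).trans (hC z hz)
  have h3 : 0.997 ≤ ‖1 + a * φ z‖ * ‖1 + a * φ' z‖ := by nlinarith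
  rw [e, norm_div, norm_mul, div_le_iff₀ (by linarith)]
  have := hC z hz
  nlinarith

end Pool.Agent.H56.Fekete
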